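import Mathlib

/-!
Polynomial certificates used in the proof that a poset on `n` points with `s (n - s)` comparable
pairs has at most `s! (n - s)!` linear extensions.
-/

set_option autoImplicit false
set_option maxRecDepth 100000

namespace Pool.Agent.Helper63.LinExt

/-- coefficient of `W` in the inequality of type A -/
def alphaA (a b r d : ℤ) : ℤ :=
  b * (a + b) * d * ((a + b - 1 - r - d) ^ 2 + a * (b - 1)) +
    r * (a + b - 1) * ((b - r) ^ 2 + a * b)

/-- constant term in the inequality of type A -/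
def betaA (a b r d : ℤ) : ℤ :=
  a * (b - 1) * (a + b - 1) *
    (((b - r) ^ 2 + a * b) * (a * (b - 1) + (a + b - 1) ^ 2) -
      b * (a + b) * ((a + b - 1 - r - d) ^ 2 + a * (b - 1)))

/-- coefficient of `W` in the inequality of type B -/
def alphaB (a b r d : ℤ) : ℤ :=
  a * (a + b) * d * ((a + b - 1 - d + b - a - r) ^ 2 + (a - 1) * b) +
    r * (a + b - 1) * ((b - r) ^ 2 + a * b)

/-- constant term in the inequality of type B -/
def betaB (a b r d : ℤ) : ℤ :=
  a * (b - 1) * (a + b - 1) *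
    (((b - r) ^ 2 + a * b) * (a * (b - 1) + (a + b - 1) ^ 2) -
      a * (a + b) * ((a + b - 1 - d + b - a - r) ^ 2 + (a - 1) * b))

/-- twice the first lower bound for `W` -/
def WH (a b : ℤ) : ℤ := (a + b - 1) ^ 2 + 2 * (a * (b - 1))

/-- the second lower bound for `W` -/
def WD (a b d : ℤ) : ℤ := d * (a + b - 1) + a * (b - 1)

theorem polyA1i (a b r d q t p : ℤ) (hq0 : 0 ≤ q) (ht0 : 0 ≤ t) (hp0 : 0 ≤ p) (hd0 : 0 ≤ d)
    (ha : a = 1 + d + q) (hr : r = 1 + p) (hb : b = a + r + t) :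
    0 ≤ WH a b * alphaA a b r d - 2 * betaA a b r d := by
  subst hb
  subst hr
  subst ha
  unfold WH alphaA betaA
  ring_nf
  positivity

theorem polyA1ii (a b r d l u g p : ℤ) (hl0 : 0 ≤ l) (hu0 : 0 ≤ u) (hg0 : 0 ≤ g) (hp0 : 0 ≤ p)
    (ha : a = 1 + l) (hr : r = 1 + p) (hd : d = l + u) (hb : b = a + r + (u + (u + g))) :
    0 ≤ WH a b * alphaA a b r d - 2 * betaA a b r d := by
  subst hb
  subst hd
  subst hr
  subst ha
  unfold WH alphaA betaA
  ring_nf
  positivity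

theorem polyA1iii (a b r d l f h g : ℤ) (hl0 : 0 ≤ l) (hf0 : 0 ≤ f) (hh0 : 0 ≤ h) (hg0 : 0 ≤ g)
    (ha : a = 1 + (l + f)) (hr : r = 1 + (h + g)) (hd : d = (l + f) + (f + h)) (hb : b = a + r + ((f + h) + f)) :
    0 ≤ WH a b * alphaA a b r d - 2 * betaA a b r d := by
  subst hb
  subst hd
  subst hr
  subst ha
  unfold WH alphaA betaA
  ring_nf
  positivity

theorem polyA1iv (a b r d l f h g : ℤ) (hl0 : 0 ≤ l) (hf0 : 0 ≤ f) (hh0 : 0 ≤ h) (hg0 : 0 ≤ g)
    (ha : a = 1 + l) (hr : r = 1 + (h + g)) (hd : d = l + ((f + l) + h)) (hb : b = a + r + (((f + l) + h) + (f + l))) :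
    0 ≤ WH a b * alphaA a b r d - 2 * betaA a b r d := by
  subst hb
  subst hd
  subst hr
  subst ha
  unfold WH alphaA betaA
  ring_nf
  positivity

theorem polyA2i (a b r d l f p h : ℤ) (hl0 : 0 ≤ l) (hf0 : 0 ≤ f) (hp0 : 0 ≤ p) (hh0 : 0 ≤ h)
    (ha : a = 1 + (l + f)) (hr : r = 1 + p) (hd : d = (l + f) + (f + p + h + 1)) (hb : b = a + r + ((f + p + h + 1) + f)) :
    0 ≤ WD a b d * alphaA a b r d - betaA a b r d := by
  subst hb
  subst hd
  subst hr
  subst ha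
  unfold WD alphaA betaA
  ring_nf
  positivity

theorem polyA2ii (a b r d l f p h : ℤ) (hl0 : 0 ≤ l) (hf0 : 0 ≤ f) (hp0 : 0 ≤ p) (hh0 : 0 ≤ h)
    (ha : a = 1 + l) (hr : r = 1 + p) (hd : d = l + ((f + l) + p + h + 1)) (hb : b = a + r + (((f + l) + p + h + 1) + (f + l))) :
    0 ≤ WD a b d * alphaA a b r d - betaA a b r d := by
  subst hb
  subst hd
  subst hr
  subst ha
  unfold WD alphaA betaA
  ring_nf
  positivity

theorem polyB1 (a b r d l t v g : ℤ) (hl0 : 0 ≤ l) (ht0 : 0 ≤ t) (hv0 : 0 ≤ v) (hg0 : 0 ≤ g)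
    (ha : a = 2 + l) (hr : r = 1 + v + (t + v + g)) (hd : d = a + t + v) (hb : b = a + r + t) :
    0 ≤ WH a b * alphaB a b r d - 2 * betaB a b r d := by
  subst hb
  subst hd
  subst hr
  subst ha
  unfold WH alphaB betaB
  ring_nf
  positivity

theorem polyB2i (a b r d l x v h : ℤ) (hl0 : 0 ≤ l) (hx0 : 0 ≤ x) (hv0 : 0 ≤ v) (hh0 : 0 ≤ h)
    (ha : a = 2 + l) (hr : r = 1 + v + (v + x)) (hd : d = a + (x + h) + v) (hb : b = a + r + (x + h)) :
    0 ≤ WD a b d * alphaB a b r d - betaB a b r d := by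
  subst hb
  subst hd
  subst hr
  subst ha
  unfold WD alphaB betaB
  ring_nf
  positivity

theorem polyB2ii (a b r d l w x t : ℤ) (hl0 : 0 ≤ l) (hw0 : 0 ≤ w) (hx0 : 0 ≤ x) (ht0 : 0 ≤ t)
    (ha : a = 2 + l) (hr : r = 1 + (w + x) + w) (hd : d = a + t + (w + x)) (hb : b = a + r + t) :
    0 ≤ WD a b d * alphaB a b r d - betaB a b r d := by
  subst hb
  subst hd
  subst hr
  subst ha
  unfold WD alphaB betaB
  ring_nf
  positivity

end Pool.Agent.Helper63.LinExt
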