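import Mathlib
import Pool.Agent.Helper63.LinExt.Poly

/-!
The potential function `F n k` bounding the number of linear extensions of a poset with `n` points
and `k` comparable pairs, and the inequalities it satisfies.
-/

set_option autoImplicit false

namespace Pool.Agent.Helper63.LinExt

theorem alphaA_nonneg (a b r d : ℤ) (ha : 1 ≤ a) (hr : 1 ≤ r) (hb : a + r ≤ b) (hd : 0 ≤ d) :
    0 ≤ alphaA a b r d := by
  unfold alphaA
  have h1 : 0 ≤ b - 1 := by linarith
  have h2 : 0 ≤ a + b - 1 := by linarith
  have h3 : 0 ≤ b := by linarith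
  have h4 : 0 ≤ a := by linarith
  positivity

theorem alphaB_nonneg (a b r d : ℤ) (ha : 1 ≤ a) (hr : 1 ≤ r) (hb : a + r ≤ b) (hd : 0 ≤ d) :
    0 ≤ alphaB a b r d := by
  unfold alphaB
  have h1 : 0 ≤ a - 1 := by linarith
  have h2 : 0 ≤ a + b - 1 := by linarith
  have h3 : 0 ≤ b := by linarith
  have h4 : 0 ≤ a := by linarith
  positivity

theorem polyA (a b r d W : ℤ) (ha : 1 ≤ a) (hr : 1 ≤ r) (hb : a + r ≤ b) (hd : 0 ≤ d)
    (hdb : d + r + 1 ≤ b) (hW1 : WH a b ≤ 2 * W) (hW2 : WD a b d ≤ W) :
    betaA a b r d ≤ W * alphaA a b r d := by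
  have hal := alphaA_nonneg a b r d ha hr hb hd
  have key1 : 0 ≤ WH a b * alphaA a b r d - 2 * betaA a b r d →
      betaA a b r d ≤ W * alphaA a b r d := by
    intro h
    have := mul_le_mul_of_nonneg_right hW1 hal
    nlinarith
  have key2 : 0 ≤ WD a b d * alphaA a b r d - betaA a b r d →
      betaA a b r d ≤ W * alphaA a b r d := by
    intro h
    have := mul_le_mul_of_nonneg_right hW2 hal
    nlinarith
  by_cases h1 : d ≤ a - 1
  · exact key1 (polyA1i a b r d (a - 1 - d) (b - a - r) (r - 1) (by linarith) (by linarith)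
      (by linarith) (by linarith) (by ring) (by ring) (by ring))
  · push Not at h1
    -- u = d - (a-1), f = t - u, t = b - a - r
    by_cases h2 : d - (a - 1) ≤ (b - a - r) - (d - (a - 1))
    · exact key1 (polyA1ii a b r d (a - 1) (d - (a - 1))
        ((b - a - r) - (d - (a - 1)) - (d - (a - 1))) (r - 1) (by linarith) (by linarith)
        (by linarith) (by linarith) (by ring) (by ring) (by ring) (by ring))
    · push Not at h2
      obtain ⟨f, hf⟩ : ∃ f, f = (b - a - r) - (d - (a - 1)) := ⟨_, rfl⟩
      obtain ⟨h, hh⟩ : ∃ h, h = (d - (a - 1)) - f := ⟨_, rfl⟩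
      have hf0 : 0 ≤ f := by linarith
      have hh0 : 0 < h := by linarith
      by_cases h3 : h ≤ r - 1
      · by_cases h4 : f ≤ a - 1
        · exact key1 (polyA1iii a b r d (a - 1 - f) f h (r - 1 - h) (by linarith) hf0
            (by linarith) (by linarith) (by ring) (by ring) (by linarith) (by linarith))
        · exact key1 (polyA1iv a b r d (a - 1) (f - (a - 1)) h (r - 1 - h) (by linarith)
            (by linarith) (by linarith) (by linarith) (by ring) (by ring) (by linarith)
            (by linarith))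
      · push Not at h3
        by_cases h4 : f ≤ a - 1
        · exact key2 (polyA2i a b r d (a - 1 - f) f (r - 1) (h - (r - 1) - 1) (by linarith) hf0
            (by linarith) (by linarith) (by ring) (by ring) (by linarith) (by linarith))
        · exact key2 (polyA2ii a b r d (a - 1) (f - (a - 1)) (r - 1) (h - (r - 1) - 1)
            (by linarith) (by linarith) (by linarith) (by linarith) (by ring) (by ring)
            (by linarith) (by linarith))

theorem polyB (a b r d W : ℤ) (ha : 2 ≤ a) (hb : a + r ≤ b)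
    (hd : b ≤ d + r) (hdb : d + 1 ≤ b) (hW1 : WH a b ≤ 2 * W) (hW2 : WD a b d ≤ W) :
    betaB a b r d ≤ W * alphaB a b r d := by
  have hal := alphaB_nonneg a b r d (by linarith) (by linarith) hb (by linarith)
  have key1 : 0 ≤ WH a b * alphaB a b r d - 2 * betaB a b r d →
      betaB a b r d ≤ W * alphaB a b r d := by
    intro h
    have := mul_le_mul_of_nonneg_right hW1 hal
    nlinarith
  have key2 : 0 ≤ WD a b d * alphaB a b r d - betaB a b r d →
      betaB a b r d ≤ W * alphaB a b r d := by
    intro h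
    have := mul_le_mul_of_nonneg_right hW2 hal
    nlinarith
  obtain ⟨t, ht⟩ : ∃ t, t = b - a - r := ⟨_, rfl⟩
  obtain ⟨v, hv⟩ : ∃ v, v = d - (a + t) := ⟨_, rfl⟩
  obtain ⟨w, hw⟩ : ∃ w, w = r - (1 + v) := ⟨_, rfl⟩
  have ht0 : 0 ≤ t := by linarith
  have hv0 : 0 ≤ v := by linarith
  have hw0 : 0 ≤ w := by linarith
  by_cases h1 : t + v ≤ w
  · exact key1 (polyB1 a b r d (a - 2) t v (w - t - v) (by linarith) ht0 hv0 (by linarith)
      (by ring) (by linarith) (by linarith) (by linarith))
  · push Not at h1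
    by_cases h2 : v ≤ w
    · exact key2 (polyB2i a b r d (a - 2) (w - v) v (t - (w - v)) (by linarith) (by linarith)
        hv0 (by linarith) (by ring) (by linarith) (by linarith) (by linarith))
    · exact key2 (polyB2ii a b r d (a - 2) w (v - w) t (by linarith) (by linarith)
        (by linarith) (by linarith) (by ring) (by linarith) (by linarith) (by linarith))

/-- final form of inequality A, all quantities natural numbers in disguise -/
theorem ineqA (a b t d D m : ℤ) (ha : 1 ≤ a) (ht : 0 ≤ t) (hb : a + t + 1 ≤ b) (hd : 0 ≤ d)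
    (hda : d + 1 ≤ a + t) (hdD : d ≤ D) (hm : m + D = a + b - 1) (h2D : a + b - 1 ≤ 2 * D) :
    (a + b - 1) * ((a + t) ^ 2 + a * b) *
        (((a - 1) * b + t) * (D * (a + b - 1) + a * (b - 1)) + m * (a * (b - 1)) * (a + b - 1)) ≤
      b * (a + b) * (d * (D * (a + b - 1) + a * (b - 1)) + (a * (b - 1)) * (a + b - 1)) *
        ((2 * a + t - 1 - d) ^ 2 + a * (b - 1)) := by
  have hn : 0 ≤ a + b - 1 := by linarith
  have h := polyA a b (b - a - t) d (D * (a + b - 1) + a * (b - 1)) ha (by linarith) (by linarith)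
    hd (by linarith) (by unfold WH; nlinarith) (by unfold WD; nlinarith)
  have hmm : m = a + b - 1 - D := by linarith
  subst hmm
  have hid : b * (a + b) * (d * (D * (a + b - 1) + a * (b - 1)) + (a * (b - 1)) * (a + b - 1)) *
        ((2 * a + t - 1 - d) ^ 2 + a * (b - 1)) -
      (a + b - 1) * ((a + t) ^ 2 + a * b) *
        (((a - 1) * b + t) * (D * (a + b - 1) + a * (b - 1)) +
          (a + b - 1 - D) * (a * (b - 1)) * (a + b - 1)) =
      (D * (a + b - 1) + a * (b - 1)) * alphaA a b (b - a - t) d - betaA a b (b - a - t) d := by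
    unfold alphaA betaA
    ring
  linarith

/-- final form of inequality B -/
theorem ineqB (a b t d D m : ℤ) (ha : 2 ≤ a) (ht : 0 ≤ t) (hb : a + t + 1 ≤ b)
    (hda : a + t ≤ d) (hdb : d + 1 ≤ b) (hdD : d ≤ D) (hm : m + D = a + b - 1)
    (h2D : a + b - 1 ≤ 2 * D) :
    (a + b - 1) * ((a + t) ^ 2 + a * b) *
        (((a - 1) * b + t) * (D * (a + b - 1) + a * (b - 1)) + m * (a * (b - 1)) * (a + b - 1)) ≤
      a * (a + b) * (d * (D * (a + b - 1) + a * (b - 1)) + (a * (b - 1)) * (a + b - 1)) *
        ((a + t + b - 1 - d) ^ 2 + (a - 1) * b) := by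
  have hn : 0 ≤ a + b - 1 := by linarith
  have h := polyB a b (b - a - t) d (D * (a + b - 1) + a * (b - 1)) ha (by linarith)
    (by linarith) (by linarith) (by unfold WH; nlinarith) (by unfold WD; nlinarith)
  have hmm : m = a + b - 1 - D := by linarith
  subst hmm
  have hid : a * (a + b) * (d * (D * (a + b - 1) + a * (b - 1)) + (a * (b - 1)) * (a + b - 1)) *
        ((a + t + b - 1 - d) ^ 2 + (a - 1) * b) -
      (a + b - 1) * ((a + t) ^ 2 + a * b) *
        (((a - 1) * b + t) * (D * (a + b - 1) + a * (b - 1)) +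
          (a + b - 1 - D) * (a * (b - 1)) * (a + b - 1)) =
      (D * (a + b - 1) + a * (b - 1)) * alphaB a b (b - a - t) d - betaB a b (b - a - t) d := by
    unfold alphaB betaB
    ring
  linarith

end Pool.Agent.Helper63.LinExt
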