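import Mathlib
import Pool.Agent.Helper63.LinExt.Arith

/-!
The potential function `F n k`.
-/

set_option autoImplicit false

namespace Pool.Agent.Helper63.LinExt

open Nat

/-- the curve attached to the pair `(a, b)`, evaluated at offset `t` -/
def cv (a b t : ℕ) : ℚ :=
  ((a ! : ℚ) * (b ! : ℚ) * ((a : ℚ) + b)) / (((a : ℚ) + t) ^ 2 + a * b)

theorem cv_den_pos {a b t : ℕ} (ha : 1 ≤ a) : 0 < ((a : ℚ) + t) ^ 2 + a * b := by
  have : (0 : ℚ) < a := by exact_mod_cast ha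
  positivity

theorem cv_pos {a b t : ℕ} (ha : 1 ≤ a) : 0 < cv a b t := by
  have h1 : (0 : ℚ) < a := by exact_mod_cast ha
  have := cv_den_pos (b := b) (t := t) ha
  unfold cv
  have h2 : (0 : ℚ) < (a ! : ℚ) := by exact_mod_cast a.factorial_pos
  have h3 : (0 : ℚ) < (b ! : ℚ) := by exact_mod_cast b.factorial_pos
  positivity

theorem cv_mul {a b t : ℕ} (ha : 1 ≤ a) :
    cv a b t * (((a : ℚ) + t) ^ 2 + a * b) = (a ! : ℚ) * (b ! : ℚ) * ((a : ℚ) + b) := by
  unfold cv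
  exact div_mul_cancel₀ _ (cv_den_pos ha).ne'

theorem cv_anti {a b t : ℕ} (ha : 1 ≤ a) : cv a b (t + 1) ≤ cv a b t := by
  unfold cv
  apply div_le_div_of_nonneg_left _ (cv_den_pos ha)
  · push_cast
    have : (0 : ℚ) ≤ a := by positivity
    have : (0 : ℚ) ≤ t := by positivity
    nlinarith
  · positivity

theorem cv_step {a b t : ℕ} (ha : 1 ≤ a) (hb : a + 1 ≤ b) :
    (a : ℚ) * cv a b t ≤ ((a : ℚ) + 1) * cv a b (t + 1) := by
  unfold cv
  rw [mul_div_assoc', mul_div_assoc', div_le_div_iff₀ (cv_den_pos ha) (cv_den_pos ha)]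
  have h1 : (1 : ℚ) ≤ a := by exact_mod_cast ha
  have h2 : (a : ℚ) + 1 ≤ b := by exact_mod_cast hb
  have h3 : (0 : ℚ) ≤ t := by positivity
  have h4 : (0 : ℚ) ≤ (a ! : ℚ) * (b ! : ℚ) * ((a : ℚ) + b) := by positivity
  have key : (a : ℚ) * (((a : ℚ) + ((t + 1 : ℕ) : ℚ)) ^ 2 + a * b) ≤
      ((a : ℚ) + 1) * (((a : ℚ) + t) ^ 2 + a * b) := by
    push_cast
    nlinarith [sq_nonneg (t : ℚ), mul_nonneg (sub_nonneg.2 h1) (sub_nonneg.2 h2)]
  calc (a : ℚ) * ((a ! : ℚ) * (b ! : ℚ) * ((a : ℚ) + b)) *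
        (((a : ℚ) + ((t + 1 : ℕ) : ℚ)) ^ 2 + a * b)
      = ((a ! : ℚ) * (b ! : ℚ) * ((a : ℚ) + b)) *
          ((a : ℚ) * (((a : ℚ) + ((t + 1 : ℕ) : ℚ)) ^ 2 + a * b)) := by ring
    _ ≤ ((a ! : ℚ) * (b ! : ℚ) * ((a : ℚ) + b)) *
          (((a : ℚ) + 1) * (((a : ℚ) + t) ^ 2 + a * b)) := mul_le_mul_of_nonneg_left key h4
    _ = ((a : ℚ) + 1) * ((a ! : ℚ) * (b ! : ℚ) * ((a : ℚ) + b)) *
          (((a : ℚ) + t) ^ 2 + a * b) := by ring

/-- value at the left end of a segment -/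
theorem cv_zero {a b : ℕ} : cv (a + 1) b 0 = (a ! : ℚ) * (b ! : ℚ) := by
  unfold cv
  rw [Nat.factorial_succ, div_eq_iff (cv_den_pos (by omega)).ne']
  push_cast
  ring

/-- value at the right end of a segment -/
theorem cv_end {a w : ℕ} : cv (a + 1) (a + 1 + w + 1) (w + 1) =
    ((a + 1) ! : ℚ) * ((a + 1 + w) ! : ℚ) := by
  unfold cv
  rw [Nat.factorial_succ (a + 1 + w), div_eq_iff (cv_den_pos (by omega)).ne']
  push_cast
  ring

/-- curves decrease with the index -/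
theorem cv_index {a w u : ℕ} (ha : 1 ≤ a) : cv (a + 1) (a + w) u ≤ cv a (a + 1 + w) (u + (w + 1)) := by
  unfold cv
  rw [div_le_div_iff₀ (cv_den_pos (by omega)) (cv_den_pos ha)]
  have e1 : ((a + 1) ! : ℚ) = ((a : ℚ) + 1) * (a ! : ℚ) := by
    rw [Nat.factorial_succ]; push_cast; ring
  have e2 : ((a + 1 + w) ! : ℚ) = ((a : ℚ) + 1 + w) * ((a + w) ! : ℚ) := by
    rw [show a + 1 + w = (a + w) + 1 by ring, Nat.factorial_succ]; push_cast; ring
  rw [e1, e2]
  have h4 : (0 : ℚ) ≤ (a ! : ℚ) * ((a + w) ! : ℚ) * (2 * (a : ℚ) + 1 + w) := by positivity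
  have key : ((a : ℚ) + 1) * (((a : ℚ) + ((u + (w + 1) : ℕ) : ℚ)) ^ 2 + a * ((a + 1 + w : ℕ) : ℚ)) ≤
      ((a : ℚ) + 1 + w) *
        ((((a + 1 : ℕ) : ℚ) + u) ^ 2 + ((a + 1 : ℕ) : ℚ) * ((a + w : ℕ) : ℚ)) := by
    push_cast
    have hu : (0 : ℚ) ≤ u := by positivity
    have hw : (0 : ℚ) ≤ w := by positivity
    have : ((a : ℚ) + 1 + w) * (((a : ℚ) + 1 + u) ^ 2 + (a + 1) * (a + w)) -
        ((a : ℚ) + 1) * (((a : ℚ) + (u + (w + 1))) ^ 2 + a * (a + 1 + w)) = u ^ 2 * w := by ring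
    have h5 : (0 : ℚ) ≤ (u : ℚ) ^ 2 * w := by positivity
    linarith
  have := mul_le_mul_of_nonneg_left key h4
  push_cast at this ⊢
  linarith

/-- middle node -/
def kmid (n : ℕ) : ℕ := (n / 2) * (n - n / 2)

theorem node_mono {n i j : ℕ} (hij : i ≤ j) (hj : j ≤ n / 2) : i * (n - i) ≤ j * (n - j) := by
  obtain ⟨p, hp⟩ := Nat.exists_eq_add_of_le hij
  have h2 : 2 * j ≤ n := by omega
  obtain ⟨q, hq⟩ := Nat.exists_eq_add_of_le h2
  subst hp
  have e1 : n - i = i + 2 * p + q := by omega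
  have e2 : n - (i + p) = i + p + q := by omega
  rw [e1, e2]
  nlinarith

theorem exists_seg {n k : ℕ} (hk : k < kmid n) : ∃ a, k < a * (n - a) := ⟨n / 2, hk⟩

open Classical in
/-- index of the segment containing `k` -/
noncomputable def seg (n k : ℕ) : ℕ := if h : ∃ a, k < a * (n - a) then Nat.find h else 0

theorem seg_spec {n k : ℕ} (hk : k < kmid n) :
    1 ≤ seg n k ∧ seg n k ≤ n / 2 ∧ (seg n k - 1) * (n - (seg n k - 1)) ≤ k ∧
      k < seg n k * (n - seg n k) := by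
  have h := exists_seg hk
  unfold seg
  rw [dif_pos h]
  have h1 : k < Nat.find h * (n - Nat.find h) := Nat.find_spec h
  have h2 : Nat.find h ≤ n / 2 := Nat.find_le hk
  have h0 : 1 ≤ Nat.find h := by
    rcases Nat.eq_zero_or_pos (Nat.find h) with h3 | h3
    · rw [h3] at h1; simp at h1
    · exact h3
  refine ⟨h0, h2, ?_, h1⟩
  have h4 := Nat.find_min h (m := Nat.find h - 1) (by omega)
  push Not at h4
  exact h4

theorem seg_unique {n k a : ℕ} (ha1 : 1 ≤ a) (ha2 : a ≤ n / 2)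
    (h1 : (a - 1) * (n - (a - 1)) ≤ k) (h2 : k < a * (n - a)) : seg n k = a := by
  have hk : k < kmid n := lt_of_lt_of_le h2 (node_mono ha2 le_rfl)
  obtain ⟨s1, s2, s3, s4⟩ := seg_spec hk
  rcases lt_trichotomy (seg n k) a with h | h | h
  · have := node_mono (n := n) (i := seg n k) (j := a - 1) (by omega) (by omega)
    omega
  · exact h
  · have := node_mono (n := n) (i := a) (j := seg n k - 1) (by omega) (by omega)
    omega

/-- the potential -/
noncomputable def F (n k : ℕ) : ℚ :=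
  if kmid n ≤ k then
    ((n / 2) ! : ℚ) * ((n - n / 2) ! : ℚ) *
      (((n / 2 : ℕ) : ℚ) / (((n / 2 : ℕ) : ℚ) + 1)) ^ (k - kmid n)
  else cv (seg n k) (n + 1 - seg n k) (k - (seg n k - 1) * (n - (seg n k - 1)))

theorem F_seg {n k a : ℕ} (ha1 : 1 ≤ a) (ha2 : a ≤ n / 2)
    (h1 : (a - 1) * (n - (a - 1)) ≤ k) (h2 : k < a * (n - a)) :
    F n k = cv a (n + 1 - a) (k - (a - 1) * (n - (a - 1))) := by
  have hk : k < kmid n := lt_of_lt_of_le h2 (node_mono ha2 le_rfl)
  unfold F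
  rw [if_neg (by omega), seg_unique ha1 ha2 h1 h2]

theorem F_ext {n k : ℕ} (hk : kmid n ≤ k) :
    F n k = ((n / 2) ! : ℚ) * ((n - n / 2) ! : ℚ) *
      (((n / 2 : ℕ) : ℚ) / (((n / 2 : ℕ) : ℚ) + 1)) ^ (k - kmid n) := by
  unfold F
  rw [if_pos hk]

/-- value at the nodes -/
theorem F_node {n s : ℕ} (hs : s ≤ n / 2) : F n (s * (n - s)) = (s ! : ℚ) * ((n - s) ! : ℚ) := by
  rcases Nat.lt_or_ge (s * (n - s)) (kmid n) with h | h
  · have hs2 : s < n / 2 := by
      rcases Nat.lt_or_ge s (n / 2) with h3 | h3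
      · exact h3
      · exfalso
        have : s = n / 2 := by omega
        rw [this] at h
        unfold kmid at h
        omega
    have h4 : s * (n - s) < (s + 1) * (n - (s + 1)) := by
      obtain ⟨q, hq⟩ := Nat.exists_eq_add_of_le (show 2 * (s + 1) ≤ n by omega)
      have e1 : n - s = s + 2 + q := by omega
      have e2 : n - (s + 1) = s + 1 + q := by omega
      rw [e1, e2]
      nlinarith
    rw [F_seg (a := s + 1) (by omega) (by omega) (by simp) h4]
    simp only [Nat.add_sub_cancel, Nat.sub_self]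
    have : n + 1 - (s + 1) = n - s := by omega
    rw [this, cv_zero]
  · have h5 : s * (n - s) = kmid n := by
      apply le_antisymm _ h
      exact node_mono hs le_rfl
    have hs2 : s = n / 2 ∨ (s < n / 2) := by omega
    rcases hs2 with hs2 | hs2
    · rw [F_ext h, h5, Nat.sub_self, pow_zero, mul_one, hs2]
    · exfalso
      have h4 : s * (n - s) < (s + 1) * (n - (s + 1)) := by
        obtain ⟨q, hq⟩ := Nat.exists_eq_add_of_le (show 2 * (s + 1) ≤ n by omega)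
        have e1 : n - s = s + 2 + q := by omega
        have e2 : n - (s + 1) = s + 1 + q := by omega
        rw [e1, e2]
        nlinarith
      have := node_mono (n := n) (i := s + 1) (j := n / 2) (by omega) le_rfl
      unfold kmid at h5
      omega

end Pool.Agent.Helper63.LinExt
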