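import Mathlib
import Pool.Agent.Helper63.LinExt.Potential

/-!
Inequalities satisfied by the potential function `F n k`.
-/

set_option autoImplicit false

namespace Pool.Agent.Helper63.LinExt

open Nat

theorem ext_aux (a b : ℕ) (hb : 1 ≤ b) (hab : b ≤ a + 1) (e : ℕ) :
    (((b : ℚ) - 1) / b) ^ e * (((b : ℚ) + e) ^ 2 + a * b) ≤ b * (a + b) := by
  have hb' : (1 : ℚ) ≤ b := by exact_mod_cast hb
  have hab' : (b : ℚ) ≤ a + 1 := by exact_mod_cast hab
  have hb0 : (0 : ℚ) < b := by linarith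
  have hr0 : 0 ≤ ((b : ℚ) - 1) / b := div_nonneg (by linarith) hb0.le
  induction e with
  | zero =>
    simp only [pow_zero, one_mul, Nat.cast_zero, add_zero]
    nlinarith
  | succ e ih =>
    have key : (((b : ℚ) - 1) / b) * (((b : ℚ) + ((e + 1 : ℕ) : ℚ)) ^ 2 + a * b) ≤
        ((b : ℚ) + e) ^ 2 + a * b := by
      rw [div_mul_eq_mul_div, div_le_iff₀ hb0]
      push_cast
      have he : (0 : ℚ) ≤ e := by positivity
      nlinarith [mul_nonneg hb0.le (sub_nonneg.2 hab'), mul_nonneg he he,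
        mul_nonneg he hb0.le]
    calc (((b : ℚ) - 1) / b) ^ (e + 1) * (((b : ℚ) + ((e + 1 : ℕ) : ℚ)) ^ 2 + a * b)
        = (((b : ℚ) - 1) / b) ^ e *
            ((((b : ℚ) - 1) / b) * (((b : ℚ) + ((e + 1 : ℕ) : ℚ)) ^ 2 + a * b)) := by
          rw [pow_succ]; ring
      _ ≤ (((b : ℚ) - 1) / b) ^ e * (((b : ℚ) + e) ^ 2 + a * b) :=
          mul_le_mul_of_nonneg_left key (pow_nonneg hr0 e)
      _ ≤ b * (a + b) := ih

/-- the extension lies below the last curve -/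
theorem F_ext_le (n k : ℕ) (hn : 1 ≤ n) (hk : kmid n ≤ k) :
    F n k ≤ cv ((n + 1) / 2) (n + 1 - (n + 1) / 2)
      (k - ((n + 1) / 2 - 1) * (n - ((n + 1) / 2 - 1))) := by
  rw [F_ext hk]
  obtain ⟨e, rfl⟩ := Nat.exists_eq_add_of_le hk
  rcases Nat.even_or_odd' n with ⟨h, rfl | rfl⟩
  · -- n = 2h, h ≥ 1
    obtain ⟨g, rfl⟩ : ∃ g, h = g + 1 := ⟨h - 1, by omega⟩
    have e1 : (2 * (g + 1)) / 2 = g + 1 := by omega
    have e2 : (2 * (g + 1) + 1) / 2 = g + 1 := by omega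
    have e3 : 2 * (g + 1) - (g + 1) = g + 1 := by omega
    have e4 : 2 * (g + 1) + 1 - (g + 1) = g + 2 := by omega
    have e5 : kmid (2 * (g + 1)) + e - (g + 1 - 1) * (2 * (g + 1) - (g + 1 - 1)) = e + 1 := by
      have : kmid (2 * (g + 1)) = (g + 1) * (g + 1) := by unfold kmid; rw [e1, e3]
      have h2 : 2 * (g + 1) - (g + 1 - 1) = g + 2 := by omega
      rw [this, h2]
      have : g + 1 - 1 = g := by omega
      rw [this]
      have : (g + 1) * (g + 1) = g * (g + 2) + 1 := by ring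
      omega
    rw [e1, e2, e3, e4, e5, Nat.add_sub_cancel_left]
    unfold cv
    rw [le_div_iff₀ (cv_den_pos (by omega))]
    have h1 := ext_aux (g + 1) (g + 2) (by omega) (by omega) e
    have e6 : ((g + 2) ! : ℚ) = ((g : ℚ) + 2) * ((g + 1) ! : ℚ) := by
      rw [show g + 2 = (g + 1) + 1 by ring, Nat.factorial_succ]; push_cast; ring
    rw [e6]
    have h2 : (0 : ℚ) ≤ ((g + 1) ! : ℚ) * ((g + 1) ! : ℚ) := by positivity
    have h3 := mul_le_mul_of_nonneg_left h1 h2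
    push_cast at h3 ⊢
    have e7 : (((g : ℚ) + 2 - 1) / ((g : ℚ) + 2)) = ((g : ℚ) + 1) / ((g : ℚ) + 1 + 1) := by
      congr 1 <;> ring
    rw [e7] at h3
    calc ((g + 1) ! : ℚ) * ((g + 1) ! : ℚ) * (((g : ℚ) + 1) / ((g : ℚ) + 1 + 1)) ^ e *
          (((g : ℚ) + 1 + (e + 1)) ^ 2 + (g + 1) * (g + 2))
        = ((g + 1) ! : ℚ) * ((g + 1) ! : ℚ) * ((((g : ℚ) + 1) / ((g : ℚ) + 1 + 1)) ^ e *
          (((g : ℚ) + 2 + e) ^ 2 + (g + 1) * (g + 2))) := by ring
      _ ≤ ((g + 1) ! : ℚ) * ((g + 1) ! : ℚ) * (((g : ℚ) + 2) * (g + 1 + (g + 2))) := h3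
      _ = _ := by ring
  · -- n = 2h+1
    have e1 : (2 * h + 1) / 2 = h := by omega
    have e2 : (2 * h + 1 + 1) / 2 = h + 1 := by omega
    have e3 : 2 * h + 1 - h = h + 1 := by omega
    have e4 : 2 * h + 1 + 1 - (h + 1) = h + 1 := by omega
    have e5 : kmid (2 * h + 1) + e - (h + 1 - 1) * (2 * h + 1 - (h + 1 - 1)) = e := by
      have : kmid (2 * h + 1) = h * (h + 1) := by unfold kmid; rw [e1, e3]
      have h2 : 2 * h + 1 - (h + 1 - 1) = h + 1 := by omega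
      rw [this, h2]
      have : h + 1 - 1 = h := by omega
      rw [this]
      omega
    rw [e1, e2, e3, e4, e5, Nat.add_sub_cancel_left]
    unfold cv
    rw [le_div_iff₀ (cv_den_pos (by omega))]
    have h1 := ext_aux (h + 1) (h + 1) (by omega) (by omega) e
    have e6 : ((h + 1) ! : ℚ) = ((h : ℚ) + 1) * (h ! : ℚ) := by
      rw [Nat.factorial_succ]; push_cast; ring
    have h2 : (0 : ℚ) ≤ (h ! : ℚ) * ((h + 1) ! : ℚ) := by positivity
    have h3 := mul_le_mul_of_nonneg_left h1 h2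
    push_cast at h3 ⊢
    have e7 : (((h : ℚ) + 1 - 1) / ((h : ℚ) + 1)) = (h : ℚ) / ((h : ℚ) + 1) := by
      congr 1; ring
    rw [e7] at h3
    calc (h ! : ℚ) * ((h + 1) ! : ℚ) * ((h : ℚ) / ((h : ℚ) + 1)) ^ e *
          (((h : ℚ) + 1 + e) ^ 2 + (h + 1) * (h + 1))
        = (h ! : ℚ) * ((h + 1) ! : ℚ) * (((h : ℚ) / ((h : ℚ) + 1)) ^ e *
          (((h : ℚ) + 1 + e) ^ 2 + (h + 1) * (h + 1))) := by ring
      _ ≤ (h ! : ℚ) * ((h + 1) ! : ℚ) * (((h : ℚ) + 1) * (h + 1 + (h + 1))) := h3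
      _ = _ := by rw [e6]; ring

/-- one step down the family of curves -/
theorem cv_chain_step {n k a : ℕ} (ha : 1 ≤ a) (ha2 : 2 * (a + 1) ≤ n + 1)
    (hk : a * (n - a) ≤ k) :
    cv (a + 1) (n + 1 - (a + 1)) (k - (a + 1 - 1) * (n - (a + 1 - 1))) ≤
      cv a (n + 1 - a) (k - (a - 1) * (n - (a - 1))) := by
  obtain ⟨w, hw⟩ := Nat.exists_eq_add_of_le (show 2 * a ≤ n by omega)
  obtain ⟨u, rfl⟩ := Nat.exists_eq_add_of_le hk
  obtain ⟨c, rfl⟩ : ∃ c, a = c + 1 := ⟨a - 1, by omega⟩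
  have e1 : n + 1 - (c + 1 + 1) = c + 1 + w := by omega
  have e2 : n + 1 - (c + 1) = c + 1 + 1 + w := by omega
  have e3 : c + 1 + 1 - 1 = c + 1 := by omega
  have e4 : c + 1 - 1 = c := by omega
  have e5 : n - c = c + 2 + w := by omega
  have e6 : n - (c + 1) = c + 1 + w := by omega
  have e7 : (c + 1) * (c + 1 + w) + u - (c + 1) * (c + 1 + w) = u := by omega
  have e8 : (c + 1) * (c + 1 + w) + u - c * (c + 2 + w) = u + (w + 1) := by
    have : (c + 1) * (c + 1 + w) = c * (c + 2 + w) + (w + 1) := by ring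
    omega
  rw [e1, e2, e3, e4, e5, e6, e7, e8]
  exact cv_index (by omega)

theorem cv_chain {n k a j : ℕ} (ha : 1 ≤ a) (haj : a ≤ j) (hj : 2 * j ≤ n + 1)
    (hk : (j - 1) * (n - (j - 1)) ≤ k) :
    cv j (n + 1 - j) (k - (j - 1) * (n - (j - 1))) ≤
      cv a (n + 1 - a) (k - (a - 1) * (n - (a - 1))) := by
  obtain ⟨p, rfl⟩ := Nat.exists_eq_add_of_le haj
  induction p with
  | zero => simp
  | succ p ih =>
    have h1 : (a + p) * (n - (a + p)) ≤ k := by
      have : a + (p + 1) - 1 = a + p := by omega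
      rw [this] at hk
      exact hk
    have h2 : (a + p - 1) * (n - (a + p - 1)) ≤ k := by
      refine le_trans (node_mono (n := n) (i := a + p - 1) (j := a + p) (by omega) (by omega)) h1
    exact le_trans (cv_chain_step (a := a + p) (by omega) (by omega) h1)
      (ih (by omega) (by omega) h2)

/-- `F` lies below every valid curve -/
theorem F_le_cv {n k a : ℕ} (hn : 1 ≤ n) (ha : 1 ≤ a) (ha2 : 2 * a ≤ n + 1)
    (hk : (a - 1) * (n - (a - 1)) ≤ k) :
    F n k ≤ cv a (n + 1 - a) (k - (a - 1) * (n - (a - 1))) := by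
  rcases Nat.lt_or_ge k (kmid n) with h | h
  · obtain ⟨s1, s2, s3, s4⟩ := seg_spec h
    rw [F_seg s1 s2 s3 s4]
    have has : a ≤ seg n k := by
      by_contra hcon
      push Not at hcon
      have := node_mono (n := n) (i := seg n k) (j := a - 1) (by omega) (by omega)
      omega
    exact cv_chain ha has (by omega) s3
  · refine le_trans (F_ext_le n k hn h) (cv_chain ha (by omega) (by omega) ?_)
    refine le_trans (node_mono (n := n) (j := n / 2) (by omega) le_rfl) h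

theorem F_succ {n k : ℕ} (hk : k < kmid n) :
    F n (k + 1) = cv (seg n k) (n + 1 - seg n k)
      (k - (seg n k - 1) * (n - (seg n k - 1)) + 1) := by
  obtain ⟨s1, s2, s3, s4⟩ := seg_spec hk
  rcases Nat.lt_or_ge (k + 1) (seg n k * (n - seg n k)) with h | h
  · rw [F_seg s1 s2 (by omega) h]
    congr 1
    omega
  · have h5 : k + 1 = seg n k * (n - seg n k) := by omega
    rw [h5, F_node s2]
    generalize seg n k = s at *
    obtain ⟨c, rfl⟩ : ∃ c, s = c + 1 := ⟨s - 1, by omega⟩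
    obtain ⟨w, hw⟩ := Nat.exists_eq_add_of_le (show 2 * (c + 1) ≤ n by omega)
    have e1 : n - (c + 1) = c + 1 + w := by omega
    have e2 : n + 1 - (c + 1) = c + 1 + w + 1 := by omega
    have e4 : c + 1 - 1 = c := by omega
    have e5 : n - c = c + 2 + w := by omega
    rw [e1] at h5
    have e6 : k - (c + 1 - 1) * (n - (c + 1 - 1)) + 1 = w + 1 := by
      rw [e4, e5]
      have : (c + 1) * (c + 1 + w) = c * (c + 2 + w) + (w + 1) := by ring
      rw [e4, e5] at s3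
      omega
    rw [e6, e1, e2, cv_end]

theorem rho_nonneg (h : ℕ) : (0 : ℚ) ≤ (h : ℚ) / ((h : ℚ) + 1) := by positivity

theorem rho_le_one (h : ℕ) : (h : ℚ) / ((h : ℚ) + 1) ≤ 1 := by
  rw [div_le_one (by positivity)]
  linarith

theorem F_pos_of_lt {n k : ℕ} (hk : k < kmid n) : 0 < F n k := by
  obtain ⟨s1, s2, s3, s4⟩ := seg_spec hk
  rw [F_seg s1 s2 s3 s4]
  exact cv_pos s1

theorem F_nonneg (n k : ℕ) : 0 ≤ F n k := by
  rcases Nat.lt_or_ge k (kmid n) with h | h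
  · exact (F_pos_of_lt h).le
  · rw [F_ext h]
    have := rho_nonneg (n / 2)
    positivity

theorem F_anti_succ (n k : ℕ) : F n (k + 1) ≤ F n k := by
  rcases Nat.lt_or_ge k (kmid n) with h | h
  · obtain ⟨s1, s2, s3, s4⟩ := seg_spec h
    rw [F_succ h, F_seg s1 s2 s3 s4]
    exact cv_anti s1
  · rw [F_ext h, F_ext (show kmid n ≤ k + 1 by omega)]
    have e : k + 1 - kmid n = (k - kmid n) + 1 := by omega
    rw [e, pow_succ]
    have h1 := rho_nonneg (n / 2)
    have h2 := rho_le_one (n / 2)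
    have h3 : (0 : ℚ) ≤ ((n / 2) ! : ℚ) * ((n - n / 2) ! : ℚ) *
      (((n / 2 : ℕ) : ℚ) / (((n / 2 : ℕ) : ℚ) + 1)) ^ (k - kmid n) := by positivity
    nlinarith

theorem F_anti (n : ℕ) : Antitone (F n) := antitone_nat_of_succ_le (F_anti_succ n)

theorem F_step {n k i : ℕ} (hi : i ≤ n / 2) (hk : (i - 1) * (n - (i - 1)) ≤ k) :
    (i : ℚ) * F n k ≤ ((i : ℚ) + 1) * F n (k + 1) := by
  rcases Nat.lt_or_ge k (kmid n) with h | h
  · obtain ⟨s1, s2, s3, s4⟩ := seg_spec h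
    have his : i ≤ seg n k := by
      by_contra hcon
      push Not at hcon
      have := node_mono (n := n) (i := seg n k) (j := i - 1) (by omega) (by omega)
      omega
    rw [F_succ h, F_seg s1 s2 s3 s4]
    have h1 := cv_step (a := seg n k) (b := n + 1 - seg n k)
      (t := k - (seg n k - 1) * (n - (seg n k - 1))) s1 (by omega)
    have h2 := cv_anti (b := n + 1 - seg n k) (t := k - (seg n k - 1) * (n - (seg n k - 1))) s1
    have h3 : (i : ℚ) ≤ seg n k := by exact_mod_cast his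
    nlinarith
  · rw [F_ext h, F_ext (show kmid n ≤ k + 1 by omega)]
    have e : k + 1 - kmid n = (k - kmid n) + 1 := by omega
    rw [e, pow_succ]
    have h1 := rho_nonneg (n / 2)
    have h3 : (0 : ℚ) ≤ ((n / 2) ! : ℚ) * ((n - n / 2) ! : ℚ) *
      (((n / 2 : ℕ) : ℚ) / (((n / 2 : ℕ) : ℚ) + 1)) ^ (k - kmid n) := by positivity
    have h4 : (i : ℚ) ≤ ((i : ℚ) + 1) * (((n / 2 : ℕ) : ℚ) / (((n / 2 : ℕ) : ℚ) + 1)) := by
      rw [mul_div_assoc', le_div_iff₀ (by positivity)]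
      have : (i : ℚ) ≤ ((n / 2 : ℕ) : ℚ) := by exact_mod_cast hi
      nlinarith
    calc (i : ℚ) * (((n / 2) ! : ℚ) * ((n - n / 2) ! : ℚ) *
          (((n / 2 : ℕ) : ℚ) / (((n / 2 : ℕ) : ℚ) + 1)) ^ (k - kmid n))
        ≤ (((i : ℚ) + 1) * (((n / 2 : ℕ) : ℚ) / (((n / 2 : ℕ) : ℚ) + 1))) *
          (((n / 2) ! : ℚ) * ((n - n / 2) ! : ℚ) *
          (((n / 2 : ℕ) : ℚ) / (((n / 2 : ℕ) : ℚ) + 1)) ^ (k - kmid n)) :=
          mul_le_mul_of_nonneg_right h4 h3
      _ = _ := by ring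

end Pool.Agent.Helper63.LinExt
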