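import Mathlib
import Pool.Agent.Helper63.LinExt.Potential2

/-!
The three recursive inequalities for the potential function `F n k`.
-/

set_option autoImplicit false
set_option maxRecDepth 10000

namespace Pool.Agent.Helper63.LinExt

open Nat

theorem poly_iso (c t s : ℚ) (hc : 0 ≤ c) (ht : 0 ≤ t) (hs : 0 ≤ s) :
    ((c + 1) + (c + 2 + (t + s)) - 1) ^ 2 * (((c + 1) + t) ^ 2 + (c + 1) * (c + 2 + (t + s))) ≤
      (c + 2 + (t + s)) * ((c + 1) + (c + 2 + (t + s))) *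
        ((t + 2 * (c + 1) - 1) ^ 2 + (c + 1) * ((c + 2 + (t + s)) - 1)) := by
  rw [← sub_nonneg]
  ring_nf
  positivity

theorem poly_simple (c t s : ℚ) (hc : 0 ≤ c) (ht : 0 ≤ t) (hs : 0 ≤ s) :
    (c + 1) * ((c + 2) + (c + 3 + (t + s)) - 1) *
        (((c + 2) + t) ^ 2 + (c + 2) * (c + 3 + (t + s))) ≤
      (c + 2) * ((c + 2) + (c + 3 + (t + s))) *
        (((c + 1) + t) ^ 2 + (c + 1) * (c + 3 + (t + s))) := by
  rw [← sub_nonneg]
  ring_nf
  positivity

/-- segment data: writing `n = 2 a + w` etc. -/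
theorem seg_data {n k : ℕ} (hk : k < kmid n) : ∃ c w t : ℕ, t ≤ w ∧ n = 2 * (c + 1) + w ∧
    k = c * (c + 2 + w) + t ∧ F n k = cv (c + 1) (c + 2 + w) t := by
  obtain ⟨s1, s2, s3, s4⟩ := seg_spec hk
  have hF := F_seg s1 s2 s3 s4
  generalize seg n k = a at *
  obtain ⟨c, rfl⟩ : ∃ c, a = c + 1 := ⟨a - 1, by omega⟩
  obtain ⟨w, rfl⟩ := Nat.exists_eq_add_of_le (show 2 * (c + 1) ≤ n by omega)
  have e1 : c + 1 - 1 = c := by omega
  have e2 : 2 * (c + 1) + w - c = c + 2 + w := by omega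
  have e3 : 2 * (c + 1) + w - (c + 1) = c + 1 + w := by omega
  have e4 : 2 * (c + 1) + w + 1 - (c + 1) = c + 2 + w := by omega
  rw [e1, e2] at s3
  rw [e3] at s4
  rw [e1, e2, e4] at hF
  have e5 : (c + 1) * (c + 1 + w) = c * (c + 2 + w) + (w + 1) := by ring
  refine ⟨c, w, k - c * (c + 2 + w), by omega, rfl, by omega, hF⟩

/-- bound of `F N k` by the curve `(a, b - 1)` -/
theorem F_le_cv' {c w k : ℕ} (hk : c * (c + 1 + w) ≤ k) :
    F (2 * (c + 1) + w - 1) k ≤ cv (c + 1) (c + 1 + w) (k - c * (c + 1 + w)) := by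
  have h := F_le_cv (n := 2 * (c + 1) + w - 1) (k := k) (a := c + 1) (by omega) (by omega)
    (by omega) (by
      have e1 : c + 1 - 1 = c := by omega
      have e2 : 2 * (c + 1) + w - 1 - c = c + 1 + w := by omega
      rw [e1, e2]; exact hk)
  have e1 : c + 1 - 1 = c := by omega
  have e2 : 2 * (c + 1) + w - 1 - c = c + 1 + w := by omega
  have e3 : 2 * (c + 1) + w - 1 + 1 - (c + 1) = c + 1 + w := by omega
  rw [e1, e2, e3] at h
  exact h

/-- bound of `F N k` by the curve `(a - 1, b)` -/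
theorem F_le_cv'' {c w k : ℕ} (hk : c * (c + 3 + w) ≤ k) :
    F (2 * (c + 2) + w - 1) k ≤ cv (c + 1) (c + 3 + w) (k - c * (c + 3 + w)) := by
  have h := F_le_cv (n := 2 * (c + 2) + w - 1) (k := k) (a := c + 1) (by omega) (by omega)
    (by omega) (by
      have e1 : c + 1 - 1 = c := by omega
      have e2 : 2 * (c + 2) + w - 1 - c = c + 3 + w := by omega
      rw [e1, e2]; exact hk)
  have e1 : c + 1 - 1 = c := by omega
  have e2 : 2 * (c + 2) + w - 1 - c = c + 3 + w := by omega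
  have e3 : 2 * (c + 2) + w - 1 + 1 - (c + 1) = c + 3 + w := by omega
  rw [e1, e2, e3] at h
  exact h

theorem two_mul_pow_le (h : ℕ) (hh : 1 ≤ h) : 2 * ((h : ℚ) / ((h : ℚ) + 1)) ^ h ≤ 1 := by
  have hpos : (0 : ℚ) < h := by exact_mod_cast hh
  rw [div_pow, mul_div_assoc', div_le_one (by positivity)]
  have h1 : (1 : ℚ) + (h : ℚ) * (1 / h) ≤ (1 + 1 / (h : ℚ)) ^ h :=
    one_add_mul_le_pow (by have : (0 : ℚ) ≤ 1 / h := by positivity
                           linarith) h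
  have h2 : (h : ℚ) * (1 / h) = 1 := by field_simp
  rw [h2] at h1
  have h3 : ((h : ℚ) + 1) ^ h = (h : ℚ) ^ h * (1 + 1 / (h : ℚ)) ^ h := by
    rw [← mul_pow]; congr 1; field_simp
  rw [h3]
  have h4 : (0 : ℚ) ≤ (h : ℚ) ^ h := by positivity
  nlinarith

theorem two_mul_pow_le' (g : ℕ) : 2 * ((g : ℚ) / ((g : ℚ) + 1)) ^ (g + 1) ≤ 1 := by
  have h1 := rho_nonneg g
  have h2 := rho_le_one g
  rcases Nat.eq_zero_or_pos g with h | h
  · subst h; simp
  · have h3 := two_mul_pow_le g h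
    rw [pow_succ]
    have h4 : 0 ≤ ((g : ℚ) / ((g : ℚ) + 1)) ^ g := pow_nonneg h1 g
    nlinarith

theorem kmid_even (h : ℕ) : kmid (2 * h) = h * h := by
  unfold kmid
  have e1 : 2 * h / 2 = h := by omega
  have e2 : 2 * h - h = h := by omega
  rw [e1, e2]

theorem kmid_odd (h : ℕ) : kmid (2 * h + 1) = h * (h + 1) := by
  unfold kmid
  have e1 : (2 * h + 1) / 2 = h := by omega
  have e2 : 2 * h + 1 - h = h + 1 := by omega
  rw [e1, e2]

theorem F_even_ext (h e : ℕ) : F (2 * h) (h * h + e) =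
    (h ! : ℚ) * (h ! : ℚ) * ((h : ℚ) / ((h : ℚ) + 1)) ^ e := by
  rw [F_ext (by rw [kmid_even]; omega), kmid_even, Nat.add_sub_cancel_left]
  have e1 : 2 * h / 2 = h := by omega
  have e2 : 2 * h - h = h := by omega
  rw [e1, e2]

theorem F_odd_ext (h e : ℕ) : F (2 * h + 1) (h * (h + 1) + e) =
    (h ! : ℚ) * ((h + 1) ! : ℚ) * ((h : ℚ) / ((h : ℚ) + 1)) ^ e := by
  rw [F_ext (by rw [kmid_odd]; omega), kmid_odd, Nat.add_sub_cancel_left]
  have e1 : (2 * h + 1) / 2 = h := by omega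
  have e2 : 2 * h + 1 - h = h + 1 := by omega
  rw [e1, e2]

theorem rho_mono (g : ℕ) : (g : ℚ) / ((g : ℚ) + 1) ≤ ((g : ℚ) + 1) / ((g : ℚ) + 1 + 1) := by
  rw [div_le_div_iff₀ (by positivity) (by positivity)]
  nlinarith

/-- isolated points -/
theorem F_iso (N k : ℕ) (hN : 1 ≤ N) : ((N : ℚ) + 1) * F N k ≤ F (N + 1) k := by
  rcases Nat.lt_or_ge k (kmid (N + 1)) with h | h
  · obtain ⟨c, w, t, htw, hn, hk, hF⟩ := seg_data h
    rw [hF]
    have hk' : c * (c + 1 + w) ≤ k := by rw [hk]; nlinarith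
    have h1 := F_le_cv' hk'
    have e1 : 2 * (c + 1) + w - 1 = N := by omega
    have e2 : k - c * (c + 1 + w) = t + c := by
      rw [hk]
      have : c * (c + 2 + w) = c * (c + 1 + w) + c := by ring
      omega
    rw [e1, e2] at h1
    refine le_trans (mul_le_mul_of_nonneg_left h1 (by positivity)) ?_
    obtain ⟨s, rfl⟩ := Nat.exists_eq_add_of_le htw
    have hNq : (N : ℚ) + 1 = 2 * ((c : ℚ) + 1) + (t + s) := by
      have : N + 1 = 2 * (c + 1) + (t + s) := hn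
      exact_mod_cast this
    rw [hNq]
    unfold cv
    rw [mul_div_assoc', div_le_div_iff₀ (cv_den_pos (by omega)) (cv_den_pos (by omega))]
    have e3 : ((c + 2 + (t + s)) ! : ℚ) = ((c : ℚ) + 2 + (t + s)) * ((c + 1 + (t + s)) ! : ℚ) := by
      rw [show c + 2 + (t + s) = (c + 1 + (t + s)) + 1 by ring, Nat.factorial_succ]
      push_cast; ring
    rw [e3]
    have hp := poly_iso (c : ℚ) t s (by positivity) (by positivity) (by positivity)
    have h5 : (0 : ℚ) ≤ ((c + 1) ! : ℚ) * ((c + 1 + (t + s)) ! : ℚ) := by positivity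
    have h6 := mul_le_mul_of_nonneg_left hp h5
    push_cast
    refine le_trans (le_of_eq ?_) (le_trans h6 (le_of_eq ?_)) <;> ring
  · rcases Nat.even_or_odd' (N + 1) with ⟨g, hg | hg⟩
    · -- N + 1 = 2 g
      obtain ⟨h', rfl⟩ : ∃ h', g = h' + 1 := ⟨g - 1, by omega⟩
      have hN' : N = 2 * h' + 1 := by omega
      subst hN'
      have hg' : 2 * h' + 1 + 1 = 2 * (h' + 1) := by ring
      rw [hg', kmid_even] at h
      obtain ⟨e, rfl⟩ := Nat.exists_eq_add_of_le h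
      rw [hg', F_even_ext]
      have e1 : (h' + 1) * (h' + 1) + e = h' * (h' + 1) + (h' + 1 + e) := by ring
      rw [e1, F_odd_ext, pow_add]
      have h1 := two_mul_pow_le' h'
      have h2 : ((h' : ℚ) / ((h' : ℚ) + 1)) ^ e ≤
          (((h' + 1 : ℕ) : ℚ) / (((h' + 1 : ℕ) : ℚ) + 1)) ^ e := by
        apply pow_le_pow_left₀ (rho_nonneg h')
        push_cast
        exact rho_mono h'
      have h3 : (0 : ℚ) ≤ ((h' : ℚ) / ((h' : ℚ) + 1)) ^ e := pow_nonneg (rho_nonneg h') e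
      have h4 : ((h' + 1) ! : ℚ) = ((h' : ℚ) + 1) * (h' ! : ℚ) := by
        rw [Nat.factorial_succ]; push_cast; ring
      have h5 : (0 : ℚ) ≤ ((h' + 1) ! : ℚ) * ((h' + 1) ! : ℚ) := by positivity
      calc (((2 * h' + 1 : ℕ) : ℚ) + 1) * ((h' ! : ℚ) * ((h' + 1) ! : ℚ) *
            (((h' : ℚ) / ((h' : ℚ) + 1)) ^ (h' + 1) * ((h' : ℚ) / ((h' : ℚ) + 1)) ^ e))
          = (((h' + 1) ! : ℚ) * ((h' + 1) ! : ℚ)) *
              ((2 * ((h' : ℚ) / ((h' : ℚ) + 1)) ^ (h' + 1)) *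
                ((h' : ℚ) / ((h' : ℚ) + 1)) ^ e) := by
            rw [h4]; push_cast; ring
        _ ≤ (((h' + 1) ! : ℚ) * ((h' + 1) ! : ℚ)) *
              (1 * (((h' + 1 : ℕ) : ℚ) / (((h' + 1 : ℕ) : ℚ) + 1)) ^ e) := by
            apply mul_le_mul_of_nonneg_left _ h5
            exact mul_le_mul h1 h2 h3 (by norm_num)
        _ = _ := by ring
    · -- N + 1 = 2 g + 1
      have hN' : N = 2 * g := by omega
      subst hN'
      have hg1 : 1 ≤ g := by omega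
      rw [kmid_odd] at h
      obtain ⟨e, rfl⟩ := Nat.exists_eq_add_of_le h
      rw [F_odd_ext]
      have e1 : g * (g + 1) + e = g * g + (g + e) := by ring
      rw [e1, F_even_ext, pow_add]
      have h1 := two_mul_pow_le g hg1
      have h3 : (0 : ℚ) ≤ ((g : ℚ) / ((g : ℚ) + 1)) ^ e := pow_nonneg (rho_nonneg g) e
      have h3' : (0 : ℚ) ≤ ((g : ℚ) / ((g : ℚ) + 1)) ^ g := pow_nonneg (rho_nonneg g) g
      have h4 : ((g + 1) ! : ℚ) = ((g : ℚ) + 1) * (g ! : ℚ) := by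
        rw [Nat.factorial_succ]; push_cast; ring
      have h5 : (0 : ℚ) ≤ (g ! : ℚ) * (g ! : ℚ) * ((g : ℚ) / ((g : ℚ) + 1)) ^ e := by positivity
      have h6 : (2 * (g : ℚ) + 1) * ((g : ℚ) / ((g : ℚ) + 1)) ^ g ≤ (g : ℚ) + 1 := by
        have : (0 : ℚ) ≤ g := by positivity
        nlinarith
      calc (((2 * g : ℕ) : ℚ) + 1) * ((g ! : ℚ) * (g ! : ℚ) *
            (((g : ℚ) / ((g : ℚ) + 1)) ^ g * ((g : ℚ) / ((g : ℚ) + 1)) ^ e))
          = ((g ! : ℚ) * (g ! : ℚ) * ((g : ℚ) / ((g : ℚ) + 1)) ^ e) *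
              ((2 * (g : ℚ) + 1) * ((g : ℚ) / ((g : ℚ) + 1)) ^ g) := by push_cast; ring
        _ ≤ ((g ! : ℚ) * (g ! : ℚ) * ((g : ℚ) / ((g : ℚ) + 1)) ^ e) * ((g : ℚ) + 1) :=
            mul_le_mul_of_nonneg_left h6 h5
        _ = _ := by rw [h4]; ring

end Pool.Agent.Helper63.LinExt
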