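import Mathlib
import Pool.Agent.Helper63.LinExt.Ineqs

/-!
The `simple` and `chord` recursive inequalities for the potential function `F n k`.
-/

set_option autoImplicit false
set_option maxRecDepth 10000

namespace Pool.Agent.Helper63.LinExt

open Nat

/-- chain of the step inequality -/
theorem F_chain (N k i j : ℕ) (hi : 1 ≤ i) (hij : i ≤ j) (hj : 2 * j ≤ N + 1)
    (hk : j * (N + 1 - j) ≤ k) :
    (i : ℚ) * F N (k - (N + 1 - i)) ≤ (j : ℚ) * F N (k - (N + 1 - j)) := by
  obtain ⟨p, rfl⟩ := Nat.exists_eq_add_of_le hij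
  induction p with
  | zero => simp
  | succ p ih =>
    have h1 : (i + p) * (N + 1 - (i + p)) ≤ k :=
      le_trans (node_mono (n := N + 1) (i := i + p) (j := i + (p + 1)) (by omega) (by omega)) hk
    refine le_trans (ih (by omega) (by omega) h1) ?_
    have h2 : (i + p - 1) * (N - (i + p - 1)) ≤ k - (N + 1 - (i + p)) := by
      obtain ⟨c, hc⟩ : ∃ c, i + p = c + 1 := ⟨i + p - 1, by omega⟩
      rw [hc] at h1 ⊢
      have e1 : c + 1 - 1 = c := by omega
      have e2 : N + 1 - (c + 1) = N - c := by omega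
      rw [e1, e2]
      rw [e2] at h1
      have : (c + 1) * (N - c) = c * (N - c) + (N - c) := by ring
      omega
    have h3 := F_step (n := N) (k := k - (N + 1 - (i + p))) (i := i + p) (by omega) h2
    have h4 : N + 1 - (i + p) ≤ k := by
      refine le_trans ?_ h1
      exact Nat.le_mul_of_pos_left _ (by omega)
    have e : k - (N + 1 - (i + p)) + 1 = k - (N + 1 - (i + (p + 1))) := by omega
    rw [e] at h3
    push_cast at h3 ⊢
    rw [← add_assoc]
    exact h3

theorem F_simple (N k m : ℕ) (hN : 1 ≤ N) (hm : 1 ≤ m) (h2m : 2 * m ≤ N + 1)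
    (hk : m * (N + 1 - m) ≤ k) :
    (m : ℚ) * F N (k - (N + 1 - m)) ≤ F (N + 1) k := by
  rcases Nat.lt_or_ge k (kmid (N + 1)) with h | h
  · obtain ⟨c, w, t, htw, hn, hk2, hF⟩ := seg_data h
    rw [hF]
    have hmc : m ≤ c := by
      by_contra hcon
      push Not at hcon
      have h1 := node_mono (n := N + 1) (i := c + 1) (j := m) (by omega) (by omega)
      have e1 : N + 1 - (c + 1) = c + 1 + w := by omega
      rw [e1] at h1
      have : (c + 1) * (c + 1 + w) = c * (c + 2 + w) + (w + 1) := by ring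
      omega
    obtain ⟨c', rfl⟩ : ∃ c', c = c' + 1 := ⟨c - 1, by omega⟩
    have e1 : N + 1 - (c' + 1) = c' + 3 + w := by omega
    have h1 := F_chain N k m (c' + 1) hm hmc (by omega) (by rw [e1, hk2]; nlinarith)
    refine le_trans h1 ?_
    rw [e1]
    have e2 : k - (c' + 3 + w) = c' * (c' + 3 + w) + t := by
      rw [hk2]
      have : (c' + 1) * (c' + 1 + 2 + w) = c' * (c' + 3 + w) + (c' + 3 + w) := by ring
      omega
    have h2 := F_le_cv'' (c := c') (w := w) (k := c' * (c' + 3 + w) + t) (by omega)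
    have e3 : 2 * (c' + 2) + w - 1 = N := by omega
    rw [e3, Nat.add_sub_cancel_left] at h2
    rw [e2]
    refine le_trans (mul_le_mul_of_nonneg_left h2 (by positivity)) ?_
    obtain ⟨s, rfl⟩ := Nat.exists_eq_add_of_le htw
    unfold cv
    rw [mul_div_assoc', div_le_div_iff₀ (cv_den_pos (by omega)) (cv_den_pos (by omega))]
    have e4 : ((c' + 1 + 1) ! : ℚ) = ((c' : ℚ) + 2) * ((c' + 1) ! : ℚ) := by
      rw [Nat.factorial_succ]
      push_cast; ring
    have e5 : c' + 1 + 2 + (t + s) = c' + 3 + (t + s) := by ring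
    rw [e4, e5]
    have hp := poly_simple (c' : ℚ) t s (by positivity) (by positivity) (by positivity)
    have h5 : (0 : ℚ) ≤ ((c' + 1) ! : ℚ) * ((c' + 3 + (t + s)) ! : ℚ) := by positivity
    have h6 := mul_le_mul_of_nonneg_left hp h5
    push_cast
    refine le_trans (le_of_eq ?_) (le_trans h6 (le_of_eq ?_)) <;> ring
  · rcases Nat.even_or_odd' (N + 1) with ⟨g, hg | hg⟩
    · -- N + 1 = 2 g
      obtain ⟨h', rfl⟩ : ∃ h', g = h' + 1 := ⟨g - 1, by omega⟩
      have hN' : N = 2 * h' + 1 := by omega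
      subst hN'
      have hg' : 2 * h' + 1 + 1 = 2 * (h' + 1) := by ring
      rw [hg', kmid_even] at h
      have e1 : 2 * h' + 1 + 1 - (h' + 1) = h' + 1 := by omega
      have h1 := F_chain (2 * h' + 1) k m (h' + 1) hm (by omega) (by omega) (by rw [e1]; exact h)
      refine le_trans h1 ?_
      rw [e1, hg']
      obtain ⟨e, rfl⟩ := Nat.exists_eq_add_of_le h
      have e2 : (h' + 1) * (h' + 1) + e - (h' + 1) = h' * (h' + 1) + e := by
        have : (h' + 1) * (h' + 1) = h' * (h' + 1) + (h' + 1) := by ring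
        omega
      rw [e2, F_odd_ext, F_even_ext]
      have h2 : ((h' : ℚ) / ((h' : ℚ) + 1)) ^ e ≤
          (((h' + 1 : ℕ) : ℚ) / (((h' + 1 : ℕ) : ℚ) + 1)) ^ e := by
        apply pow_le_pow_left₀ (rho_nonneg h')
        push_cast
        exact rho_mono h'
      have h4 : ((h' + 1) ! : ℚ) = ((h' : ℚ) + 1) * (h' ! : ℚ) := by
        rw [Nat.factorial_succ]; push_cast; ring
      have h5 : (0 : ℚ) ≤ ((h' + 1) ! : ℚ) * ((h' + 1) ! : ℚ) := by positivity
      calc ((h' + 1 : ℕ) : ℚ) * ((h' ! : ℚ) * ((h' + 1) ! : ℚ) * ((h' : ℚ) / ((h' : ℚ) + 1)) ^ e)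
          = (((h' + 1) ! : ℚ) * ((h' + 1) ! : ℚ)) * ((h' : ℚ) / ((h' : ℚ) + 1)) ^ e := by
            rw [h4]; push_cast; ring
        _ ≤ _ := mul_le_mul_of_nonneg_left h2 h5
    · -- N + 1 = 2 g + 1
      have hN' : N = 2 * g := by omega
      subst hN'
      have hg1 : 1 ≤ g := by omega
      rw [kmid_odd] at h
      have e1 : 2 * g + 1 - g = g + 1 := by omega
      have h1 := F_chain (2 * g) k m g hm (by omega) (by omega) (by rw [e1]; exact h)
      refine le_trans h1 ?_
      rw [e1]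
      obtain ⟨e, rfl⟩ := Nat.exists_eq_add_of_le h
      rcases Nat.eq_zero_or_pos e with he | he
      · subst he
        have e2 : g * (g + 1) + 0 - (g + 1) = (g - 1) * (2 * g - (g - 1)) := by
          obtain ⟨g', rfl⟩ : ∃ g', g = g' + 1 := ⟨g - 1, by omega⟩
          have e3 : 2 * (g' + 1) - (g' + 1 - 1) = g' + 2 := by omega
          have e4 : g' + 1 - 1 = g' := by omega
          rw [e3, e4]
          have : (g' + 1) * (g' + 1 + 1) = g' * (g' + 2) + (g' + 2) := by ring
          omega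
        rw [e2, F_node (by omega), F_odd_ext, pow_zero, mul_one]
        obtain ⟨g', rfl⟩ : ∃ g', g = g' + 1 := ⟨g - 1, by omega⟩
        have e3 : 2 * (g' + 1) - (g' + 1 - 1) = g' + 2 := by omega
        have e4 : g' + 1 - 1 = g' := by omega
        rw [e3, e4]
        have h4 : ((g' + 1) ! : ℚ) = ((g' : ℚ) + 1) * (g' ! : ℚ) := by
          rw [Nat.factorial_succ]; push_cast; ring
        have h5 : g' + 1 + 1 = g' + 2 := by ring
        rw [h5, h4]
        apply le_of_eq
        push_cast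
        ring
      · obtain ⟨e', rfl⟩ : ∃ e', e = e' + 1 := ⟨e - 1, by omega⟩
        have e2 : g * (g + 1) + (e' + 1) - (g + 1) = g * g + e' := by
          have : g * (g + 1) = g * g + g := by ring
          omega
        rw [e2, F_even_ext, F_odd_ext]
        have h4 : ((g + 1) ! : ℚ) = ((g : ℚ) + 1) * (g ! : ℚ) := by
          rw [Nat.factorial_succ]; push_cast; ring
        rw [h4, pow_succ]
        apply le_of_eq
        have hne : ((g : ℚ) + 1) ≠ 0 := by positivity
        field_simp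

/-- the linear majorant used when there are too few relations for all minimal elements to be
below everything else -/
theorem F_chord (N k m : ℕ) (hN : 1 ≤ N) (hm : 1 ≤ m) (h2m : 2 * m ≤ N + 1)
    (hk : k < m * (N + 1 - m)) :
    ∃ w v : ℚ, 0 ≤ w ∧ w * k + m * v ≤ F (N + 1) k ∧
      ∀ d : ℕ, d ≤ N + 1 - m → d ≤ k → F N (k - d) ≤ w * d + v := by
  have hkm : k < kmid (N + 1) := lt_of_lt_of_le hk (node_mono (by omega) le_rfl)
  obtain ⟨c, W, t, htw, hn, hk2, hF⟩ := seg_data hkm
  obtain ⟨s, rfl⟩ := Nat.exists_eq_add_of_le htw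
  -- a = c+1, b = c+2+(t+s), n = N+1 = a+b-1
  have hcm : c + 1 ≤ m := by
    by_contra hcon
    push Not at hcon
    have h1 := node_mono (n := N + 1) (i := m) (j := c) (by omega) (by omega)
    have e1 : N + 1 - c = c + 2 + (t + s) := by omega
    rw [e1] at h1
    omega
  obtain ⟨D, hD⟩ : ∃ D, D = N + 1 - m := ⟨_, rfl⟩
  -- K = a (b-1)
  obtain ⟨K, hK⟩ : ∃ K : ℚ, K = ((c : ℚ) + 1) * ((c : ℚ) + 1 + (t + s)) := ⟨_, rfl⟩
  obtain ⟨V, hV⟩ : ∃ V : ℚ, V = (D : ℚ) * ((N : ℚ) + 1) + K := ⟨_, rfl⟩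
  obtain ⟨Q, hQ⟩ : ∃ Q : ℚ, Q = (k : ℚ) * V + m * (K * ((N : ℚ) + 1)) := ⟨_, rfl⟩
  have hKpos : 0 < K := by rw [hK]; positivity
  have hVpos : 0 < V := by rw [hV]; positivity
  have hmq : (0 : ℚ) < m := by exact_mod_cast hm
  have hQpos : 0 < Q := by rw [hQ]; positivity
  have hFpos : 0 < F (N + 1) k := F_pos_of_lt hkm
  refine ⟨F (N + 1) k * V / Q, F (N + 1) k * (K * ((N : ℚ) + 1)) / Q, by positivity, ?_, ?_⟩
  · apply le_of_eq
    rw [div_mul_eq_mul_div, mul_div_assoc', ← add_div, div_eq_iff hQpos.ne', hQ]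
    ring
  · intro d hdD hdk
    have hgoal : F N (k - d) * Q ≤ F (N + 1) k * ((d : ℚ) * V + K * ((N : ℚ) + 1)) := by
      have hmD : m + D = N + 1 := by omega
      have hNq : (N : ℚ) + 1 = 2 * ((c : ℚ) + 1) + (t + s) := by exact_mod_cast hn
      have hkq : (k : ℚ) = (c : ℚ) * (c + 2 + (t + s)) + t := by exact_mod_cast hk2
      rcases Nat.lt_or_ge (c + t) d with hd | hd
      · -- type B
        have hc1 : 1 ≤ c := by
          rcases Nat.eq_zero_or_pos c with h0 | h0
          · exfalso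
            rw [h0, Nat.zero_mul] at hk2
            omega
          · exact h0
        obtain ⟨c', rfl⟩ : ∃ c', c = c' + 1 := ⟨c - 1, by omega⟩
        have h1 : c' * (c' + 3 + (t + s)) ≤ k - d := by
          have : (c' + 1) * (c' + 1 + 2 + (t + s)) =
              c' * (c' + 3 + (t + s)) + (c' + 3 + (t + s)) := by ring
          omega
        have h2 := F_le_cv'' h1
        have e3 : 2 * (c' + 2) + (t + s) - 1 = N := by omega
        obtain ⟨z, hz⟩ : ∃ z, z = c' + 3 + (t + s) + t - d := ⟨_, rfl⟩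
        have e4 : k - d - c' * (c' + 3 + (t + s)) = z := by
          have : (c' + 1) * (c' + 1 + 2 + (t + s)) =
              c' * (c' + 3 + (t + s)) + (c' + 3 + (t + s)) := by ring
          omega
        have hzd : z + d = c' + 3 + (t + s) + t := by omega
        rw [e3, e4] at h2
        have hzq : (z : ℚ) = c' + 3 + (t + s) + t - d := by
          have : (z : ℚ) + d = c' + 3 + (t + s) + t := by exact_mod_cast hzd
          linarith
        have hB := ineqB ((c' : ℤ) + 2) ((c' : ℤ) + 3 + (t + s)) t d D m (by omega) (by omega)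
          (by omega) (by push_cast at *; omega) (by omega) (by omega) (by omega) (by omega)
        have hBq : ((((c' : ℤ) + 2 + ((c' : ℤ) + 3 + (t + s)) - 1) *
            (((c' : ℤ) + 2 + t) ^ 2 + ((c' : ℤ) + 2) * ((c' : ℤ) + 3 + (t + s))) *
            ((((c' : ℤ) + 2 - 1) * ((c' : ℤ) + 3 + (t + s)) + t) *
              (D * ((c' : ℤ) + 2 + ((c' : ℤ) + 3 + (t + s)) - 1) +
                ((c' : ℤ) + 2) * (((c' : ℤ) + 3 + (t + s)) - 1)) +
              m * (((c' : ℤ) + 2) * (((c' : ℤ) + 3 + (t + s)) - 1)) *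
                ((c' : ℤ) + 2 + ((c' : ℤ) + 3 + (t + s)) - 1)) : ℤ) : ℚ) ≤
            ((((c' : ℤ) + 2) * ((c' : ℤ) + 2 + ((c' : ℤ) + 3 + (t + s))) *
              (d * (D * ((c' : ℤ) + 2 + ((c' : ℤ) + 3 + (t + s)) - 1) +
                ((c' : ℤ) + 2) * (((c' : ℤ) + 3 + (t + s)) - 1)) +
                (((c' : ℤ) + 2) * (((c' : ℤ) + 3 + (t + s)) - 1)) *
                  ((c' : ℤ) + 2 + ((c' : ℤ) + 3 + (t + s)) - 1)) *
              (((c' : ℤ) + 2 + t + ((c' : ℤ) + 3 + (t + s)) - 1 - d) ^ 2 +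
                ((c' : ℤ) + 2 - 1) * ((c' : ℤ) + 3 + (t + s))) : ℤ) : ℚ) := by
          exact_mod_cast hB
        push_cast at hBq
        refine le_trans (mul_le_mul_of_nonneg_right h2 hQpos.le) ?_
        rw [hF]
        unfold cv
        rw [div_mul_eq_mul_div, div_mul_eq_mul_div,
          div_le_div_iff₀ (cv_den_pos (by omega)) (cv_den_pos (by omega))]
        have e5 : ((c' + 1 + 1) ! : ℚ) = ((c' : ℚ) + 2) * ((c' + 1) ! : ℚ) := by
          rw [Nat.factorial_succ]
          push_cast; ring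
        have e6 : c' + 1 + 2 + (t + s) = c' + 3 + (t + s) := by ring
        rw [e5, e6]
        have h5 : (0 : ℚ) ≤ ((c' + 1) ! : ℚ) * ((c' + 3 + (t + s)) ! : ℚ) := by positivity
        have h6 := mul_le_mul_of_nonneg_left hBq h5
        rw [hQ, hV, hK, hNq, hkq, hzq]
        push_cast
        refine le_trans (le_of_eq ?_) (le_trans h6 (le_of_eq ?_)) <;> ring
      · -- type A
        have h1 : c * (c + 1 + (t + s)) ≤ k - d := by
          have : c * (c + 2 + (t + s)) = c * (c + 1 + (t + s)) + c := by ring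
          omega
        have h2 := F_le_cv' h1
        have e3 : 2 * (c + 1) + (t + s) - 1 = N := by omega
        obtain ⟨z, hz⟩ : ∃ z, z = c + t - d := ⟨_, rfl⟩
        have e4 : k - d - c * (c + 1 + (t + s)) = z := by
          have : c * (c + 2 + (t + s)) = c * (c + 1 + (t + s)) + c := by ring
          omega
        have hzd : z + d = c + t := by omega
        rw [e3, e4] at h2
        have hzq : (z : ℚ) = c + t - d := by
          have : (z : ℚ) + d = c + t := by exact_mod_cast hzd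
          linarith
        have hA := ineqA ((c : ℤ) + 1) ((c : ℤ) + 2 + (t + s)) t d D m (by omega) (by omega)
          (by omega) (by omega) (by omega) (by omega) (by omega) (by omega)
        have hAq : ((((c : ℤ) + 1 + ((c : ℤ) + 2 + (t + s)) - 1) *
            (((c : ℤ) + 1 + t) ^ 2 + ((c : ℤ) + 1) * ((c : ℤ) + 2 + (t + s))) *
            ((((c : ℤ) + 1 - 1) * ((c : ℤ) + 2 + (t + s)) + t) *
              (D * ((c : ℤ) + 1 + ((c : ℤ) + 2 + (t + s)) - 1) +
                ((c : ℤ) + 1) * (((c : ℤ) + 2 + (t + s)) - 1)) +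
              m * (((c : ℤ) + 1) * (((c : ℤ) + 2 + (t + s)) - 1)) *
                ((c : ℤ) + 1 + ((c : ℤ) + 2 + (t + s)) - 1)) : ℤ) : ℚ) ≤
            ((((c : ℤ) + 2 + (t + s)) * ((c : ℤ) + 1 + ((c : ℤ) + 2 + (t + s))) *
              (d * (D * ((c : ℤ) + 1 + ((c : ℤ) + 2 + (t + s)) - 1) +
                ((c : ℤ) + 1) * (((c : ℤ) + 2 + (t + s)) - 1)) +
                (((c : ℤ) + 1) * (((c : ℤ) + 2 + (t + s)) - 1)) *
                  ((c : ℤ) + 1 + ((c : ℤ) + 2 + (t + s)) - 1)) *
              ((2 * ((c : ℤ) + 1) + t - 1 - d) ^ 2 +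
                ((c : ℤ) + 1) * (((c : ℤ) + 2 + (t + s)) - 1)) : ℤ) : ℚ) := by
          exact_mod_cast hA
        push_cast at hAq
        refine le_trans (mul_le_mul_of_nonneg_right h2 hQpos.le) ?_
        rw [hF]
        unfold cv
        rw [div_mul_eq_mul_div, div_mul_eq_mul_div,
          div_le_div_iff₀ (cv_den_pos (by omega)) (cv_den_pos (by omega))]
        have e5 : ((c + 2 + (t + s)) ! : ℚ) =
            ((c : ℚ) + 2 + (t + s)) * ((c + 1 + (t + s)) ! : ℚ) := by
          rw [show c + 2 + (t + s) = (c + 1 + (t + s)) + 1 by ring, Nat.factorial_succ]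
          push_cast; ring
        rw [e5]
        have h5 : (0 : ℚ) ≤ ((c + 1) ! : ℚ) * ((c + 1 + (t + s)) ! : ℚ) := by positivity
        have h6 := mul_le_mul_of_nonneg_left hAq h5
        rw [hQ, hV, hK, hNq, hkq, hzq]
        push_cast
        refine le_trans (le_of_eq ?_) (le_trans h6 (le_of_eq ?_)) <;> ring
    have e7 : F (N + 1) k * V / Q * d + F (N + 1) k * (K * ((N : ℚ) + 1)) / Q =
        F (N + 1) k * ((d : ℚ) * V + K * ((N : ℚ) + 1)) / Q := by
      rw [div_mul_eq_mul_div, ← add_div]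
      congr 1
      ring
    rw [e7, le_div_iff₀ hQpos]
    exact hgoal

end Pool.Agent.Helper63.LinExt
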