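import Mathlib
import Pool.Agent.Helper63.LinExt.Ineqs2

/-!
Linear extensions as lists, and the recursions they satisfy.
-/

set_option autoImplicit false
set_option linter.unusedSectionVars false

namespace Pool.Agent.Helper63.LinExt

open Finset

variable {α : Type*} [DecidableEq α]

open Classical in
/-- the orderings of `S` (as duplicate-free lists) in which no entry is `r`-below an earlier one -/
noncomputable def LE (r : α → α → Prop) (S : Finset α) : Finset (List α) :=
  S.toList.permutations.toFinset.filter (fun l => l.Pairwise (fun x y => ¬ r y x))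

theorem mem_LE {r : α → α → Prop} {S : Finset α} {l : List α} :
    l ∈ LE r S ↔ l.Nodup ∧ l.toFinset = S ∧ l.Pairwise (fun x y => ¬ r y x) := by
  classical
  unfold LE
  rw [Finset.mem_filter, List.mem_toFinset, List.mem_permutations]
  constructor
  · rintro ⟨hp, hl⟩
    refine ⟨hp.symm.nodup S.nodup_toList, ?_, hl⟩
    rw [List.toFinset_eq_of_perm _ _ hp, Finset.toList_toFinset]
  · rintro ⟨hn, hS, hl⟩
    refine ⟨?_, hl⟩
    apply List.perm_of_nodup_nodup_toFinset_eq hn S.nodup_toList
    rw [hS, Finset.toList_toFinset]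

open Classical in
/-- number of related pairs inside `S` -/
noncomputable def K (r : α → α → Prop) (S : Finset α) : ℕ :=
  ((S ×ˢ S).filter (fun p => r p.1 p.2)).card

open Classical in
/-- number of elements of `S` above `x` -/
noncomputable def D (r : α → α → Prop) (S : Finset α) (x : α) : ℕ :=
  (S.filter (fun y => r x y)).card

open Classical in
/-- minimal elements -/
noncomputable def Mn (r : α → α → Prop) (S : Finset α) : Finset α :=
  S.filter (fun x => ∀ y ∈ S, ¬ r y x)

theorem mem_Mn {r : α → α → Prop} {S : Finset α} {x : α} :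
    x ∈ Mn r S ↔ x ∈ S ∧ ∀ y ∈ S, ¬ r y x := by
  classical
  unfold Mn; rw [Finset.mem_filter]

theorem Mn_subset {r : α → α → Prop} {S : Finset α} : Mn r S ⊆ S := by
  intro x hx; exact (mem_Mn.1 hx).1

theorem K_eq_sum (r : α → α → Prop) (S : Finset α) : K r S = ∑ x ∈ S, D r S x := by
  classical
  unfold K D
  rw [Finset.card_filter, Finset.sum_product]
  apply Finset.sum_congr rfl
  intro x _
  rw [Finset.card_filter]

theorem K_erase {r : α → α → Prop} {S : Finset α} {x : α} (hx : x ∈ Mn r S) :
    K r (S.erase x) + D r S x = K r S := by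
  classical
  obtain ⟨hxS, hx'⟩ := mem_Mn.1 hx
  rw [K_eq_sum, K_eq_sum, ← Finset.add_sum_erase S _ hxS, add_comm]
  congr 1
  apply Finset.sum_congr rfl
  intro y hy
  unfold D
  congr 1
  ext z
  simp only [Finset.mem_filter, Finset.mem_erase]
  constructor
  · rintro ⟨⟨_, h1⟩, h2⟩; exact ⟨h1, h2⟩
  · rintro ⟨h1, h2⟩
    refine ⟨⟨?_, h1⟩, h2⟩
    rintro rfl
    exact hx' y (Finset.mem_of_mem_erase hy) h2

theorem sum_D_le {r : α → α → Prop} {S : Finset α} : ∑ x ∈ Mn r S, D r S x ≤ K r S := by
  rw [K_eq_sum]
  exact Finset.sum_le_sum_of_subset Mn_subset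

theorem D_le {r : α → α → Prop} {S : Finset α} {x : α} (hx : x ∈ S) :
    D r S x ≤ S.card - (Mn r S).card := by
  classical
  rw [← Finset.card_sdiff_of_subset Mn_subset]
  unfold D
  apply Finset.card_le_card
  intro y hy
  rw [Finset.mem_filter] at hy
  rw [Finset.mem_sdiff]
  refine ⟨hy.1, fun h => (mem_Mn.1 h).2 x hx hy.2⟩

theorem K_flip (r : α → α → Prop) (S : Finset α) : K (fun a b => r b a) S = K r S := by
  classical
  unfold K
  apply Finset.card_bij (fun p _ => (p.2, p.1))
  · intro p hp
    rw [Finset.mem_filter, Finset.mem_product] at hp ⊢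
    exact ⟨⟨hp.1.2, hp.1.1⟩, hp.2⟩
  · intro p _ q _ h
    rw [Prod.mk.injEq] at h
    exact Prod.ext h.2 h.1
  · intro p hp
    rw [Finset.mem_filter, Finset.mem_product] at hp
    refine ⟨(p.2, p.1), ?_, rfl⟩
    rw [Finset.mem_filter, Finset.mem_product]
    exact ⟨⟨hp.1.2, hp.1.1⟩, hp.2⟩

theorem LE_flip_le (r : α → α → Prop) (S : Finset α) :
    (LE r S).card ≤ (LE (fun a b => r b a) S).card := by
  apply Finset.card_le_card_of_injOn List.reverse
  · intro l hl
    have hl' := mem_LE.1 (Finset.mem_coe.1 hl)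
    rw [Finset.mem_coe, mem_LE]
    refine ⟨List.nodup_reverse.2 hl'.1, ?_, ?_⟩
    · rw [← hl'.2.1]; ext y; simp
    · rw [List.pairwise_reverse]; exact hl'.2.2
  · intro l _ l' _ h
    exact List.reverse_injective h

/-- removing the first element -/
theorem LE_card_le_sum {r : α → α → Prop} (hirr : ∀ x, ¬ r x x) {S : Finset α} (hS : S.Nonempty) :
    (LE r S).card ≤ ∑ x ∈ Mn r S, (LE r (S.erase x)).card := by
  classical
  have hsub : LE r S ⊆ (Mn r S).biUnion (fun x => (LE r (S.erase x)).image (List.cons x)) := by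
    intro l hl
    obtain ⟨hn, hS', hp⟩ := mem_LE.1 hl
    cases l with
    | nil =>
      rw [← hS'] at hS
      simp at hS
    | cons x t =>
      rw [Finset.mem_biUnion]
      rw [List.pairwise_cons] at hp
      rw [List.nodup_cons] at hn
      refine ⟨x, ?_, ?_⟩
      · rw [mem_Mn, ← hS']
        refine ⟨by simp, ?_⟩
        intro y hy
        rw [List.mem_toFinset, List.mem_cons] at hy
        rcases hy with rfl | hy
        · exact hirr y
        · exact hp.1 y hy
      · rw [Finset.mem_image]
        refine ⟨t, ?_, rfl⟩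
        rw [mem_LE]
        refine ⟨hn.2, ?_, hp.2⟩
        rw [← hS', List.toFinset_cons, Finset.erase_insert]
        rw [List.mem_toFinset]; exact hn.1
  calc (LE r S).card ≤ _ := Finset.card_le_card hsub
    _ ≤ _ := Finset.card_biUnion_le
    _ ≤ _ := Finset.sum_le_sum (fun x _ => Finset.card_image_le)

/-- removing an arbitrary element -/
theorem LE_card_le_mul {r : α → α → Prop} {S : Finset α} {z : α} (hz : z ∈ S) :
    (LE r S).card ≤ (LE r (S.erase z)).card * S.card := by
  classical
  have h : (LE r S).card ≤ (LE r (S.erase z) ×ˢ Finset.range S.card).card := by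
    apply Finset.card_le_card_of_injOn (fun l => (l.erase z, l.idxOf z))
    · intro l hl
      obtain ⟨hn, hS', hp⟩ := mem_LE.1 (Finset.mem_coe.1 hl)
      have hzl : z ∈ l := by rw [← List.mem_toFinset, hS']; exact hz
      rw [Finset.mem_coe, Finset.mem_product]
      refine ⟨?_, ?_⟩
      · rw [mem_LE]
        refine ⟨hn.erase z, ?_, hp.sublist List.erase_sublist⟩
        ext y
        rw [List.mem_toFinset, hn.mem_erase_iff, Finset.mem_erase, ← hS', List.mem_toFinset]
      · rw [Finset.mem_range, ← hS', List.toFinset_card_of_nodup hn]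
        exact List.idxOf_lt_length_iff.2 hzl
    · intro l hl l' hl' h
      obtain ⟨hn, hS', hp⟩ := mem_LE.1 (Finset.mem_coe.1 hl)
      obtain ⟨hn', hS'', hp'⟩ := mem_LE.1 (Finset.mem_coe.1 hl')
      have hzl : z ∈ l := by rw [← List.mem_toFinset, hS']; exact hz
      have hzl' : z ∈ l' := by rw [← List.mem_toFinset, hS'']; exact hz
      simp only [Prod.mk.injEq] at h
      obtain ⟨h1, h2⟩ := h
      have key : ∀ m : List α, z ∈ m → (m.erase z).insertIdx (m.idxOf z) z = m := by
        intro m hm
        rw [← List.eraseIdx_idxOf_eq_erase z m]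
        have hlt : m.idxOf z < m.length := List.idxOf_lt_length_iff.2 hm
        have h3 := List.insertIdx_eraseIdx_getElem hlt
        rw [List.getElem_idxOf] at h3
        exact h3
      rw [← key l hzl, ← key l' hzl', h1, h2]
  rwa [Finset.card_product, Finset.card_range] at h

theorem LE_card_empty (r : α → α → Prop) : (LE r (∅ : Finset α)).card ≤ 1 := by
  rw [Finset.card_le_one]
  intro a ha b hb
  have h1 := (mem_LE.1 ha).2.1
  have h2 := (mem_LE.1 hb).2.1
  rw [List.toFinset_eq_empty_iff] at h1 h2
  rw [h1, h2]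

theorem LE_card_one (r : α → α → Prop) {S : Finset α} (hS : S.card = 1) :
    (LE r S).card ≤ 1 := by
  obtain ⟨z, rfl⟩ := Finset.card_eq_one.1 hS
  have h := LE_card_le_mul (r := r) (S := {z}) (z := z) (Finset.mem_singleton_self z)
  rw [Finset.card_singleton, mul_one, Finset.erase_singleton] at h
  exact h.trans (LE_card_empty r)

theorem K_one {r : α → α → Prop} (hirr : ∀ x, ¬ r x x) {S : Finset α} (hS : S.card ≤ 1) :
    K r S = 0 := by
  classical
  unfold K
  rw [Finset.card_eq_zero, Finset.filter_eq_empty_iff]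
  rintro ⟨x, y⟩ hp
  rw [Finset.mem_product] at hp
  have := Finset.card_le_one.1 hS x hp.1 y hp.2
  subst this
  exact hirr x

/-- if there is no isolated element, the minimal and maximal elements are disjoint -/
theorem card_Mn_add {r : α → α → Prop} {S : Finset α}
    (h : ∀ z ∈ S, ¬ (∀ y ∈ S, ¬ r z y ∧ ¬ r y z)) :
    (Mn r S).card + (Mn (fun a b => r b a) S).card ≤ S.card := by
  rw [← Finset.card_union_of_disjoint]
  · exact Finset.card_le_card (Finset.union_subset Mn_subset Mn_subset)
  · rw [Finset.disjoint_left]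
    intro z h1 h2
    rw [mem_Mn] at h1 h2
    exact h z h1.1 (fun y hy => ⟨h2.2 y hy, h1.2 y hy⟩)

end Pool.Agent.Helper63.LinExt
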