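import Mathlib
import Pool.Agent.Helper63.LinExt.Count

/-!
The main bound: the number of orderings compatible with `r` on `S` is at most `F |S| (K r S)`.
-/

set_option autoImplicit false

namespace Pool.Agent.Helper63.LinExt

open Finset

variable {α : Type*} [DecidableEq α]

theorem step {N : ℕ} (hN : 1 ≤ N) {r : α → α → Prop} (hirr : ∀ x, ¬ r x x) {S : Finset α}
    (hS : S.card = N + 1)
    (IH : ∀ x ∈ S, ((LE r (S.erase x)).card : ℚ) ≤ F N (K r (S.erase x)))
    (hm : 2 * (Mn r S).card ≤ N + 1) : ((LE r S).card : ℚ) ≤ F (N + 1) (K r S) := by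
  have hne : S.Nonempty := by
    rw [← Finset.card_pos]; omega
  have h1 : ((LE r S).card : ℚ) ≤ ∑ x ∈ Mn r S, F N (K r S - D r S x) := by
    calc ((LE r S).card : ℚ) ≤ ((∑ x ∈ Mn r S, (LE r (S.erase x)).card : ℕ) : ℚ) := by
          exact_mod_cast LE_card_le_sum hirr hne
      _ = ∑ x ∈ Mn r S, ((LE r (S.erase x)).card : ℚ) := by push_cast; rfl
      _ ≤ _ := by
          apply Finset.sum_le_sum
          intro x hx
          have h2 := IH x (Mn_subset hx)
          have h3 : K r (S.erase x) = K r S - D r S x := by
            have := K_erase hx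
            omega
          rwa [h3] at h2
  set m := (Mn r S).card with hm_def
  rcases Nat.eq_zero_or_pos m with h0 | hpos
  · have : Mn r S = ∅ := Finset.card_eq_zero.1 h0
    rw [this, Finset.sum_empty] at h1
    exact h1.trans (F_nonneg _ _)
  · have hD : ∀ x ∈ Mn r S, D r S x ≤ N + 1 - m := by
      intro x hx
      have := D_le (r := r) (Mn_subset hx)
      rwa [hS] at this
    have hDK : ∀ x ∈ Mn r S, D r S x ≤ K r S := by
      intro x hx
      have := K_erase hx
      omega
    rcases le_or_gt (m * (N + 1 - m)) (K r S) with hk | hk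
    · calc ((LE r S).card : ℚ) ≤ _ := h1
        _ ≤ ∑ x ∈ Mn r S, F N (K r S - (N + 1 - m)) := by
            apply Finset.sum_le_sum
            intro x hx
            apply F_anti
            have := hD x hx
            omega
        _ = (m : ℚ) * F N (K r S - (N + 1 - m)) := by
            rw [Finset.sum_const, nsmul_eq_mul]
        _ ≤ _ := F_simple N (K r S) m hN hpos hm hk
    · obtain ⟨w, v, hw, hwv, hch⟩ := F_chord N (K r S) m hN hpos hm hk
      calc ((LE r S).card : ℚ) ≤ _ := h1
        _ ≤ ∑ x ∈ Mn r S, (w * (D r S x : ℚ) + v) := by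
            apply Finset.sum_le_sum
            intro x hx
            exact hch _ (hD x hx) (hDK x hx)
        _ = w * ((∑ x ∈ Mn r S, D r S x : ℕ) : ℚ) + m * v := by
            rw [Finset.sum_add_distrib, ← Finset.mul_sum, Finset.sum_const, nsmul_eq_mul]
            push_cast
            rfl
        _ ≤ w * (K r S : ℚ) + m * v := by
            have : ((∑ x ∈ Mn r S, D r S x : ℕ) : ℚ) ≤ (K r S : ℚ) := by
              exact_mod_cast sum_D_le
            have := mul_le_mul_of_nonneg_left this hw
            linarith
        _ ≤ _ := hwv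

theorem main_bound (n : ℕ) : ∀ (S : Finset α) (r : α → α → Prop), (∀ x, ¬ r x x) → S.card = n →
    ((LE r S).card : ℚ) ≤ F n (K r S) := by
  induction n with
  | zero =>
    intro S r hirr hS
    have h1 := K_one hirr (S := S) (by omega)
    rw [Finset.card_eq_zero] at hS
    subst hS
    rw [h1]
    have h2 := F_node (n := 0) (s := 0) (by omega)
    simp only [Nat.zero_mul, Nat.factorial_zero, Nat.sub_self, Nat.cast_one, mul_one] at h2
    rw [h2]
    exact_mod_cast LE_card_empty r
  | succ N ih =>
    intro S r hirr hS
    rcases Nat.eq_zero_or_pos N with hN | hN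
    · subst hN
      rw [K_one hirr (S := S) (by omega)]
      have h2 := F_node (n := 1) (s := 0) (by omega)
      simp only [Nat.factorial_zero, Nat.sub_zero, Nat.factorial_one,
        Nat.cast_one, mul_one] at h2
      rw [show F (0 + 1) 0 = 1 from h2]
      exact_mod_cast LE_card_one r hS
    · by_cases hiso : ∃ z ∈ S, ∀ y ∈ S, ¬ r z y ∧ ¬ r y z
      · obtain ⟨z, hz, hz'⟩ := hiso
        have hzM : z ∈ Mn r S := mem_Mn.2 ⟨hz, fun y hy => (hz' y hy).2⟩
        have hD : D r S z = 0 := by
          classical
          unfold D
          rw [Finset.card_eq_zero, Finset.filter_eq_empty_iff]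
          intro y hy
          exact (hz' y hy).1
        have hK : K r (S.erase z) = K r S := by
          have := K_erase hzM
          omega
        have h1 := ih (S.erase z) r hirr (by rw [Finset.card_erase_of_mem hz]; omega)
        rw [hK] at h1
        calc ((LE r S).card : ℚ) ≤ (((LE r (S.erase z)).card * S.card : ℕ) : ℚ) := by
              exact_mod_cast LE_card_le_mul hz
          _ = ((LE r (S.erase z)).card : ℚ) * ((N : ℚ) + 1) := by rw [hS]; push_cast; ring
          _ ≤ F N (K r S) * ((N : ℚ) + 1) := by
              apply mul_le_mul_of_nonneg_right h1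
              positivity
          _ = ((N : ℚ) + 1) * F N (K r S) := by ring
          _ ≤ _ := F_iso N (K r S) hN
      · have hiso' : ∀ z ∈ S, ¬ (∀ y ∈ S, ¬ r z y ∧ ¬ r y z) := by
          intro z hz h
          exact hiso ⟨z, hz, h⟩
        have hadd := card_Mn_add hiso'
        rw [hS] at hadd
        rcases le_or_gt (2 * (Mn r S).card) (N + 1) with hm | hm
        · apply step hN hirr hS _ hm
          intro x hx
          exact ih (S.erase x) r hirr (by rw [Finset.card_erase_of_mem hx]; omega)
        · have hm' : 2 * (Mn (fun a b => r b a) S).card ≤ N + 1 := by omega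
          have hirr' : ∀ x, ¬ (fun a b => r b a) x x := fun x => hirr x
          have h2 := step (r := fun a b => r b a) hN hirr' hS (fun x hx =>
            ih (S.erase x) (fun a b => r b a) hirr'
              (by rw [Finset.card_erase_of_mem hx]; omega)) hm'
          rw [K_flip r S] at h2
          refine le_trans ?_ h2
          exact_mod_cast LE_flip_le r S

/-- if the number of related pairs is `s * (n - s)`, there are at most `s! (n - s)!` orderings -/
theorem count_le {n s : ℕ} (hs : s ≤ n) (S : Finset α) (r : α → α → Prop) (hirr : ∀ x, ¬ r x x)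
    (hS : S.card = n) (hK : K r S = s * (n - s)) :
    (LE r S).card ≤ Nat.factorial s * Nat.factorial (n - s) := by
  have h := main_bound n S r hirr hS
  rcases le_or_gt s (n / 2) with h1 | h1
  · rw [hK, F_node h1] at h
    exact_mod_cast h
  · have h2 : n - s ≤ n / 2 := by omega
    have h3 : n - (n - s) = s := by omega
    have h4 : K r S = (n - s) * (n - (n - s)) := by rw [hK, h3, mul_comm]
    rw [h4, F_node h2, h3] at h
    rw [mul_comm]
    exact_mod_cast h

end Pool.Agent.Helper63.LinExt
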